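import Pool.Agent.T2H62.ME.E

set_option autoImplicit false

/-! # The law of the numbers of the elements between the squares of consecutive elements -/

namespace Pool.Agent.T2H62.ME

open Finset Filter Topology MeasureTheory ProbabilityTheory
open Pool.Agent.T2H53.GW
open Pool.Agent.T2H62.MD

variable (R : Set ℕ) [DecidablePred (· ∈ R)]

open scoped Classical in
theorem brocard_law (hlaw : ∀ lam : ℝ, 0 < lam → ∀ ε : ℝ, 0 < ε → ∀ᶠ N : ℕ in atTop,
        |(LR R ⌊lam * Real.log N⌋₊ N : ℝ) - Real.exp (-lam) * (N / Real.log N)| ≤ ε * (N / Real.log N))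
    (hcard : ∀ ε : ℝ, 0 < ε → ∀ᶠ N : ℕ in atTop,
        |(((Ioc N (2 * N)).filter (fun n => n ∈ R)).card : ℝ) - N / Real.log N| ≤ ε * (N / Real.log N))
    (hgap : ∀ᶠ N : ℕ in atTop, ∃ n ∈ Ioc N (N + ⌊Real.log N ^ (3 : ℝ)⌋₊), n ∈ R) (B : ℕ → ℕ → ℕ)
    (hB : ∀ δ : ℝ, 0 < δ → ∀ᶠ r : ℕ in atTop, ∀ r' : ℕ, r < r' → (∀ n ∈ Ioo r r', n ∉ R) →
        |(B r r' : ℝ) - ((r' : ℝ) ^ 2 - r ^ 2) / (2 * Real.log r)| ≤ δ * (((r' : ℝ) ^ 2 - r ^ 2) / (2 * Real.log r)))
    (lam : ℝ) (hl : 0 < lam) :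
    Tendsto (fun N : ℕ => ((((Ioc N (2 * N)).filter (fun r => ∃ r' : ℕ, (r ∈ R ∧ r' ∈ R ∧ r < r' ∧ ∀ n ∈ Ioo r r', n ∉ R) ∧
      lam * r < B r r')).card : ℕ) : ℝ) / ((Ioc N (2 * N)).filter (fun n => n ∈ R)).card)
      atTop (𝓝 (Real.exp (-lam))) := by
  have hinf : R.Infinite := by
    intro hfin
    obtain ⟨b, hb⟩ := hfin.bddAbove
    obtain ⟨N, ⟨n, hn, hnR⟩, hN⟩ := (hgap.and (eventually_ge_atTop b)).exists
    rw [mem_Ioc] at hn
    have := hb hnR
    omega
  apply prop_law R hlaw hcard _ lam hl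
  · intro l hl0 hll
    -- a small parameter
    obtain ⟨δ, hδ0, hδ1, hδ⟩ : ∃ δ : ℝ, 0 < δ ∧ δ ≤ 1 ∧ l * (1 + δ) ^ 2 < lam := by
      have hc : Continuous (fun δ : ℝ => l * (1 + δ) ^ 2) := by fun_prop
      have h1 := (hc.tendsto 0).eventually_lt_const (show l * (1 + (0 : ℝ)) ^ 2 < lam by
        rw [add_zero, one_pow, mul_one]
        exact hll)
      have h2 := (h1.filter_mono (nhdsWithin_le_nhds (s := Set.Ioi 0))).and (Ioo_mem_nhdsGT (show (0 : ℝ) < 1 by norm_num))
      obtain ⟨δ, h3, h4⟩ := h2.exists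
      exact ⟨δ, h4.1, h4.2.le, h3⟩
    have hsmall : ∀ᶠ r : ℕ in atTop, Real.log r ^ (3 : ℝ) ≤ 2 * δ * r := by
      filter_upwards [log_pow_small 3 (1 / (2 * δ)) 1 one_pos (by positivity)] with r h1
      rw [Real.rpow_one] at h1
      have h2 : Real.log r ^ (3 : ℝ) = Real.log r ^ 3 := by
        rw [show (3 : ℝ) = ((3 : ℕ) : ℝ) by norm_num, Real.rpow_natCast]
      rw [h2]
      have h3 : 2 * δ * (1 / (2 * δ) * Real.log r ^ 3) ≤ 2 * δ * r := mul_le_mul_of_nonneg_left h1 (by positivity)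
      have h4 : 2 * δ * (1 / (2 * δ) * Real.log r ^ 3) = Real.log r ^ 3 := by field_simp
      linarith
    obtain ⟨n₀, hn₀⟩ := eventually_atTop.1 ((hB δ hδ0).and (hgap.and hsmall))
    filter_upwards [eventually_ge_atTop (max n₀ 3)] with N hN
    have hN3 : 3 ≤ N := (le_max_right _ _).trans hN
    unfold LR
    norm_cast
    apply card_le_card
    intro r hr
    rw [mem_filter, mem_Ioc] at hr ⊢
    obtain ⟨hr1, r', ⟨hr2, hr3, hr4, hr5⟩, hr6⟩ := hr
    refine ⟨hr1, hr2, fun h hh hR => ?_⟩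
    rw [mem_Icc] at hh
    obtain ⟨h1, ⟨n, hn, hnR⟩, h3⟩ := hn₀ r (by have := le_max_left n₀ 3; omega)
    have hN0 : (0 : ℝ) < N := by exact_mod_cast (by omega : 0 < N)
    have hr0 : (0 : ℝ) < r := by exact_mod_cast (by omega : 0 < r)
    have hlN : 0 < Real.log (N : ℝ) := Real.log_pos (by exact_mod_cast (by omega : 1 < N))
    have hlr : 0 < Real.log (r : ℝ) := Real.log_pos (by exact_mod_cast (by omega : 1 < r))
    have hlNr : Real.log N ≤ Real.log r := Real.log_le_log hN0 (by exact_mod_cast hr1.1.le)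
    -- `r'` is the next element
    have h4 : r' ≤ r + h := by
      by_contra hc
      push Not at hc
      exact hr5 (r + h) (by rw [mem_Ioo]; omega) hR
    have h5 : r' ≤ n := by
      by_contra hc
      push Not at hc
      rw [mem_Ioc] at hn
      exact hr5 n (by rw [mem_Ioo]; omega) hnR
    have hg1 : (r' : ℝ) - r ≤ l * Real.log N := by
      have b1 : ((⌊l * Real.log (N : ℝ)⌋₊ : ℕ) : ℝ) ≤ l * Real.log N := Nat.floor_le (by positivity)
      have b2 : (h : ℝ) ≤ ((⌊l * Real.log (N : ℝ)⌋₊ : ℕ) : ℝ) := by exact_mod_cast hh.2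
      have b3 : (r' : ℝ) ≤ r + h := by exact_mod_cast h4
      linarith
    have hg2 : (r' : ℝ) - r ≤ 2 * δ * r := by
      rw [mem_Ioc] at hn
      have b1 : (n : ℝ) ≤ r + ⌊Real.log r ^ (3 : ℝ)⌋₊ := by exact_mod_cast hn.2
      have b2 : ((⌊Real.log (r : ℝ) ^ (3 : ℝ)⌋₊ : ℕ) : ℝ) ≤ Real.log r ^ (3 : ℝ) := Nat.floor_le (by positivity)
      have b3 : (r' : ℝ) ≤ n := by exact_mod_cast h5
      linarith
    have hg0 : 0 < (r' : ℝ) - r := by
      have : (r : ℝ) < r' := by exact_mod_cast hr4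
      linarith
    have h6 := (abs_le.1 (h1 r' hr4 hr5)).2
    have h7 : ((r' : ℝ) ^ 2 - r ^ 2) / (2 * Real.log r) ≤ (1 + δ) * (l * Real.log N) * r / Real.log r := by
      rw [div_le_div_iff₀ (by positivity) hlr]
      have b1 : (r' : ℝ) ^ 2 - r ^ 2 = (r' - r) * (r' + r) := by ring
      have b2 : (r' : ℝ) + r ≤ 2 * (1 + δ) * r := by linarith
      have b3 : ((r' : ℝ) - r) * (r' + r) ≤ (l * Real.log N) * (2 * (1 + δ) * r) := mul_le_mul hg1 b2 (by positivity) (by positivity)
      rw [b1]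
      calc ((r' : ℝ) - r) * (r' + r) * Real.log r ≤ (l * Real.log N) * (2 * (1 + δ) * r) * Real.log r :=
            mul_le_mul_of_nonneg_right b3 hlr.le
        _ = _ := by ring
    have h8 : (B r r' : ℝ) ≤ (1 + δ) * ((1 + δ) * (l * Real.log N) * r / Real.log r) := by
      have : (1 + δ) * (((r' : ℝ) ^ 2 - r ^ 2) / (2 * Real.log r)) ≤ (1 + δ) * ((1 + δ) * (l * Real.log N) * r / Real.log r) :=
        mul_le_mul_of_nonneg_left h7 (by linarith)
      linarith
    have h9 : (1 + δ) * ((1 + δ) * (l * Real.log N) * r / Real.log r) ≤ lam * r := by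
      have b1 : (1 + δ) * ((1 + δ) * (l * Real.log N) * r / Real.log r) = (l * (1 + δ) ^ 2) * r * (Real.log N / Real.log r) := by ring
      rw [b1]
      have b2 : Real.log (N : ℝ) / Real.log r ≤ 1 := by
        rw [div_le_one hlr]
        exact hlNr
      calc (l * (1 + δ) ^ 2) * r * (Real.log N / Real.log r) ≤ (l * (1 + δ) ^ 2) * r * 1 :=
            mul_le_mul_of_nonneg_left b2 (by positivity)
        _ ≤ lam * r := by
            rw [mul_one]
            exact mul_le_mul_of_nonneg_right hδ.le hr0.le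
    linarith
  · intro l hll
    obtain ⟨δ, hδ0, hδ1, hδ⟩ : ∃ δ : ℝ, 0 < δ ∧ δ < 1 ∧ lam < l * (1 - δ) := by
      have hc : Continuous (fun δ : ℝ => l * (1 - δ)) := by fun_prop
      have h1 := (hc.tendsto 0).eventually_const_lt (show lam < l * (1 - (0 : ℝ)) by
        rw [sub_zero, mul_one]
        exact hll)
      have h2 := (h1.filter_mono (nhdsWithin_le_nhds (s := Set.Ioi 0))).and (Ioo_mem_nhdsGT (show (0 : ℝ) < 1 by norm_num))
      obtain ⟨δ, h3, h4⟩ := h2.exists
      exact ⟨δ, h4.1, h4.2, h3⟩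
    obtain ⟨n₀, hn₀⟩ := eventually_atTop.1 (hB δ hδ0)
    filter_upwards [eventually_ge_atTop (max n₀ 3), hL.eventually_ge_atTop (lam / (l * (1 - δ) - lam))] with N hN hN2
    have hN3 : 3 ≤ N := (le_max_right _ _).trans hN
    unfold LR
    norm_cast
    apply card_le_card
    intro r hr
    rw [mem_filter, mem_Ioc] at hr ⊢
    obtain ⟨hr1, hr2, hr3⟩ := hr
    obtain ⟨r', hr', hrr', hno⟩ := next_ex hinf r
    refine ⟨hr1, r', ⟨hr2, hr', hrr', hno⟩, ?_⟩
    have hN0 : (0 : ℝ) < N := by exact_mod_cast (by omega : 0 < N)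
    have hr0 : (0 : ℝ) < r := by exact_mod_cast (by omega : 0 < r)
    have hr2N : (r : ℝ) ≤ 2 * N := by exact_mod_cast hr1.2
    have hlN : 0 < Real.log (N : ℝ) := Real.log_pos (by exact_mod_cast (by omega : 1 < N))
    have hlr : 0 < Real.log (r : ℝ) := Real.log_pos (by exact_mod_cast (by omega : 1 < r))
    have hlrN : Real.log r ≤ Real.log N + 1 := by
      have b2 := Real.log_le_log hr0 hr2N
      rw [Real.log_mul (by norm_num) hN0.ne'] at b2
      have b3 := Real.log_two_lt_d9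
      linarith
    have hl' : 0 < l := by linarith
    have hg : l * Real.log N < (r' : ℝ) - r := by
      by_contra hcon
      push Not at hcon
      apply hr3 (r' - r)
      · rw [mem_Icc]
        refine ⟨by omega, ?_⟩
        apply Nat.le_floor
        rw [Nat.cast_sub hrr'.le]
        exact hcon
      · have : r + (r' - r) = r' := by omega
        rw [this]
        exact hr'
    have h1 := (abs_le.1 (hn₀ r (by have := le_max_left n₀ 3; omega) r' hrr' hno)).1
    have h2 : (l * Real.log N) * r / Real.log r < ((r' : ℝ) ^ 2 - r ^ 2) / (2 * Real.log r) := by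
      rw [div_lt_div_iff₀ hlr (by positivity)]
      have b1 : (r' : ℝ) ^ 2 - r ^ 2 = (r' - r) * (r' + r) := by ring
      have b2 : 2 * (r : ℝ) ≤ r' + r := by
        have : (r : ℝ) ≤ r' := by exact_mod_cast hrr'.le
        linarith
      have b3 : (l * Real.log N) * (2 * r) < ((r' : ℝ) - r) * (r' + r) := mul_lt_mul hg b2 (by positivity) (by
        have : 0 < l * Real.log N := by positivity
        linarith)
      rw [b1]
      calc (l * Real.log N) * r * (2 * Real.log r) = (l * Real.log N) * (2 * r) * Real.log r := by ring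
        _ < ((r' : ℝ) - r) * (r' + r) * Real.log r := mul_lt_mul_of_pos_right b3 hlr
    have h3 : (1 - δ) * ((l * Real.log N) * r / Real.log r) < B r r' := by
      have : (1 - δ) * ((l * Real.log N) * r / Real.log r) < (1 - δ) * (((r' : ℝ) ^ 2 - r ^ 2) / (2 * Real.log r)) :=
        mul_lt_mul_of_pos_left h2 (by linarith)
      linarith
    refine lt_of_le_of_lt ?_ h3
    have h4 : (1 - δ) * ((l * Real.log N) * r / Real.log r) = ((l * (1 - δ)) * Real.log N / Real.log r) * r := by ring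
    rw [h4]
    apply mul_le_mul_of_nonneg_right _ hr0.le
    rw [le_div_iff₀ hlr]
    have hd : 0 < l * (1 - δ) - lam := by linarith
    rw [div_le_iff₀ hd] at hN2
    have h5 : lam * Real.log r ≤ lam * (Real.log N + 1) := mul_le_mul_of_nonneg_left hlrN hl.le
    linarith

end Pool.Agent.T2H62.ME
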