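import Pool.Agent.T2H62.MD.Y
import Pool.Agent.T2H62.MD.R
import Pool.Agent.T2H62.MD.Sh

set_option autoImplicit false

/-! # The average of the singular series of pairs -/

namespace Pool.Agent.T2H62.ME

open Finset Filter Topology MeasureTheory ProbabilityTheory
open Pool.Agent.T2H53.GW
open Pool.Agent.T2H62.MD
open Pool.Agent.H305R2 (VV VV_tendsto)

/-- local density of the pairs `n`, `n + d` without prime factors `≤ z` -/
noncomputable def PP (z d : ℕ) : ℝ := ∏ p ∈ PJ z, (1 - (if p ∣ d then (1 : ℝ) else 2) / p)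

theorem nu_pair (a d p : ℕ) : (nu {a, a + d} p : ℝ) = if p ∣ d then (1 : ℝ) else 2 := by
  unfold nu
  rw [image_insert, image_singleton]
  split_ifs with h
  · have h1 : a % p = (a + d) % p := by
      obtain ⟨k, rfl⟩ := h
      rw [Nat.add_mul_mod_self_left]
    rw [h1]
    simp
  · have h1 : a % p ≠ (a + d) % p := by
      intro h2
      apply h
      have h3 : a ≡ a + d [MOD p] := h2
      have h4 := (Nat.modEq_iff_dvd' (by omega : a ≤ a + d)).1 h3
      have h5 : a + d - a = d := by omega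
      rwa [h5] at h4
    rw [card_insert_of_notMem (by rw [mem_singleton]; exact h1), card_singleton]
    norm_num

theorem card_pair (a d : ℕ) (hd : 1 ≤ d) : ({a, a + d} : Finset ℕ).card = 2 := by
  rw [Finset.card_pair (by omega)]

theorem PP_eq (a d z : ℕ) (hd : 1 ≤ d) : ∏ p ∈ PJ z, (1 - (nu {a, a + d} p : ℝ) / p) = PP z d := by
  unfold PP
  refine prod_congr rfl fun p hp => ?_
  rw [nu_pair a d p]

theorem PP_nonneg (z d : ℕ) : 0 ≤ PP z d := by
  unfold PP
  apply prod_nonneg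
  intro p hp
  have h2 : (2 : ℝ) ≤ p := by exact_mod_cast (PJ_prime hp).two_le
  split_ifs
  · rw [sub_nonneg, div_le_one (by linarith)]
    linarith
  · rw [sub_nonneg, div_le_one (by linarith)]
    exact h2

/-- the product over the primes `≤ w` of `1 - 1/p` -/
noncomputable def V1 (w : ℕ) : ℝ := ∏ p ∈ PJ w, (1 - (p : ℝ)⁻¹)

theorem V1_bd (w : ℕ) : 0 ≤ V1 w ∧ V1 w ≤ 1 := prod_bd (PJ w) fun _ hp => PJ_prime hp

theorem V1_VV (w : ℕ) : VV w * V1 w = 1 := VV_mul w

/-- the average at a low level -/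
theorem avg_low (w D : ℕ) : ∑ d ∈ Icc 1 D, PP w d ≤ V1 w * (D * V1 w + 2 ^ (PJ w).card) := by
  classical
  obtain ⟨hV0, hV1⟩ := V1_bd w
  -- a bound for every `B`
  have key : ∀ B : ℕ, (B : ℝ) * ∑ d ∈ Icc 1 D, PP w d ≤
      (B * V1 w + 2 ^ (PJ w).card) * (D * V1 w + 2 ^ (PJ w).card) + D * 3 ^ (PJ w).card := by
    intro B
    have h1 : ∀ d ∈ Icc 1 D, (B : ℝ) * PP w d ≤ (NX (PJ w) (XX {0, 0 + d}) 1 0 0 B : ℝ) + 3 ^ (PJ w).card := by
      intro d hd
      rw [mem_Icc] at hd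
      have h2 := leg_tuple {0, 0 + d} w w le_rfl 0 B (Nat.zero_le _)
      rw [PP_eq 0 d w hd.1, card_pair 0 d hd.1] at h2
      have h3 := (abs_le.1 h2).1
      have h4 : ((2 : ℕ) : ℝ) + 1 = 3 := by norm_num
      rw [h4, Nat.cast_zero, sub_zero] at h3
      linarith
    have h5 : ∑ d ∈ Icc 1 D, (NX (PJ w) (XX {0, 0 + d}) 1 0 0 B : ℝ) ≤
        (B * V1 w + 2 ^ (PJ w).card) * (D * V1 w + 2 ^ (PJ w).card) := by
      have h6 : ∑ d ∈ Icc 1 D, (NX (PJ w) (XX {0, 0 + d}) 1 0 0 B : ℝ) =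
          ∑ n ∈ (Ioc 0 B).filter (fun n => ∀ p ∈ PJ w, ¬ p ∣ n), (((Icc 1 D).filter (fun d => ∀ p ∈ PJ w, ¬ p ∣ n + d)).card : ℝ) := by
        have h7 : ∀ d ∈ Icc 1 D, (NX (PJ w) (XX {0, 0 + d}) 1 0 0 B : ℝ) =
            ∑ n ∈ (Ioc 0 B).filter (fun n => ∀ p ∈ PJ w, ¬ p ∣ n), if (∀ p ∈ PJ w, ¬ p ∣ n + d) then (1 : ℝ) else 0 := by
          intro d _
          rw [← sum_filter, sum_const, nsmul_eq_mul, mul_one]
          congr 1
          unfold NX
          rw [filter_filter]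
          congr 1
          apply filter_congr
          intro n _
          constructor
          · rintro ⟨-, h8⟩
            refine ⟨fun p hp => ?_, fun p hp => ?_⟩
            · have := (XX_iff {0, 0 + d} (PJ_prime hp).pos n).1 (h8 p hp) 0 (by simp)
              rwa [add_zero] at this
            · have := (XX_iff {0, 0 + d} (PJ_prime hp).pos n).1 (h8 p hp) (0 + d) (by simp)
              rwa [zero_add] at this
          · rintro ⟨h8, h9⟩
            refine ⟨Nat.modEq_one, fun p hp => ?_⟩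
            rw [XX_iff {0, 0 + d} (PJ_prime hp).pos n]
            intro h hh
            rw [mem_insert, mem_singleton] at hh
            rcases hh with rfl | rfl
            · rw [add_zero]
              exact h8 p hp
            · rw [zero_add]
              exact h9 p hp
        rw [sum_congr rfl h7, sum_comm]
        refine sum_congr rfl fun n _ => ?_
        rw [← sum_filter, sum_const, nsmul_eq_mul, mul_one]
      rw [h6]
      have h8 : ∀ n : ℕ, (((Icc 1 D).filter (fun d => ∀ p ∈ PJ w, ¬ p ∣ n + d)).card : ℝ) ≤ D * V1 w + 2 ^ (PJ w).card := by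
        intro n
        have h9 : ((Icc 1 D).filter (fun d => ∀ p ∈ PJ w, ¬ p ∣ n + d)).card = NP (PJ w) n (n + D) := by
          unfold NP
          rw [← card_image_of_injective _ (f := fun d => n + d) (fun a b h => Nat.add_left_cancel h)]
          congr 1
          ext m
          rw [mem_image, mem_filter, mem_Ioc]
          constructor
          · rintro ⟨d, hd, rfl⟩
            rw [mem_filter, mem_Icc] at hd
            exact ⟨by omega, hd.2⟩
          · rintro ⟨h10, h11⟩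
            refine ⟨m - n, ?_, by omega⟩
            rw [mem_filter, mem_Icc]
            have : n + (m - n) = m := by omega
            rw [this]
            exact ⟨by omega, h11⟩
        rw [h9]
        have h10 := (abs_le.1 (leg (PJ w) (fun _ hp => PJ_prime hp) n (n + D))).2
        rw [max_eq_right (by omega)] at h10
        push_cast at h10
        have h11 : ((n : ℝ) + D - n) * ∏ p ∈ PJ w, (1 - (p : ℝ)⁻¹) = D * V1 w := by
          unfold V1
          ring
        linarith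
      have h12 : (((Ioc 0 B).filter (fun n => ∀ p ∈ PJ w, ¬ p ∣ n)).card : ℝ) ≤ B * V1 w + 2 ^ (PJ w).card := by
        have h10 := (abs_le.1 (leg (PJ w) (fun _ hp => PJ_prime hp) 0 B)).2
        rw [max_eq_right (Nat.zero_le _)] at h10
        have h11 : ((B : ℝ) - (0 : ℕ)) * ∏ p ∈ PJ w, (1 - (p : ℝ)⁻¹) = B * V1 w := by
          unfold V1
          rw [Nat.cast_zero, sub_zero]
        have h13 : (((Ioc 0 B).filter (fun n => ∀ p ∈ PJ w, ¬ p ∣ n)).card : ℝ) = (NP (PJ w) 0 B : ℝ) := rfl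
        rw [h13]
        linarith
      calc ∑ n ∈ (Ioc 0 B).filter (fun n => ∀ p ∈ PJ w, ¬ p ∣ n), (((Icc 1 D).filter (fun d => ∀ p ∈ PJ w, ¬ p ∣ n + d)).card : ℝ) ≤
            ∑ n ∈ (Ioc 0 B).filter (fun n => ∀ p ∈ PJ w, ¬ p ∣ n), (D * V1 w + 2 ^ (PJ w).card) := sum_le_sum fun n _ => h8 n
        _ = (((Ioc 0 B).filter (fun n => ∀ p ∈ PJ w, ¬ p ∣ n)).card : ℝ) * (D * V1 w + 2 ^ (PJ w).card) := by
            rw [sum_const, nsmul_eq_mul]
        _ ≤ _ := mul_le_mul_of_nonneg_right h12 (by positivity)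
    calc (B : ℝ) * ∑ d ∈ Icc 1 D, PP w d = ∑ d ∈ Icc 1 D, (B : ℝ) * PP w d := mul_sum _ _ _
      _ ≤ ∑ d ∈ Icc 1 D, ((NX (PJ w) (XX {0, 0 + d}) 1 0 0 B : ℝ) + 3 ^ (PJ w).card) := sum_le_sum h1
      _ = ∑ d ∈ Icc 1 D, (NX (PJ w) (XX {0, 0 + d}) 1 0 0 B : ℝ) + D * 3 ^ (PJ w).card := by
          rw [sum_add_distrib, sum_const, Nat.card_Icc, nsmul_eq_mul]
          simp
      _ ≤ _ := by linarith
  by_contra hcon
  push Not at hcon
  obtain ⟨e, he⟩ : ∃ e, e = ∑ d ∈ Icc 1 D, PP w d - V1 w * (D * V1 w + 2 ^ (PJ w).card) := ⟨_, rfl⟩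
  have he0 : 0 < e := by rw [he]; linarith
  obtain ⟨Y, hY⟩ : ∃ Y : ℝ, Y = 2 ^ (PJ w).card * (D * V1 w + 2 ^ (PJ w).card) + D * 3 ^ (PJ w).card := ⟨_, rfl⟩
  obtain ⟨B, hB⟩ := exists_nat_gt (Y / e)
  rw [div_lt_iff₀ he0] at hB
  have h1 := key B
  have h2 : (B : ℝ) * ∑ d ∈ Icc 1 D, PP w d = B * (V1 w * (D * V1 w + 2 ^ (PJ w).card)) + B * e := by
    rw [he]
    ring
  have h3 : (B * V1 w + 2 ^ (PJ w).card) * (D * V1 w + 2 ^ (PJ w).card) + D * 3 ^ (PJ w).card =
      B * (V1 w * (D * V1 w + 2 ^ (PJ w).card)) + Y := by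
    rw [hY]
    ring
  rw [h2, h3] at h1
  linarith

/-- raising the level -/
theorem raise (w z d H : ℕ) (hw : 2 ≤ w) (hwz : w ≤ z) (hd : 1 ≤ d) (hdH : d ≤ H) :
    VV z ^ 2 * PP z d ≤ Real.exp (2 * Real.log H / (w * Real.log w)) * (VV w ^ 2 * PP w d) := by
  classical
  have hw0 : (2 : ℝ) ≤ w := by exact_mod_cast hw
  have hlw : 0 < Real.log (w : ℝ) := Real.log_pos (by linarith)
  have hH1 : (1 : ℝ) ≤ H := by exact_mod_cast hd.trans hdH
  -- the local factors
  have hfac : ∀ y : ℕ, VV y ^ 2 * PP y d = ∏ p ∈ PJ y, ((1 - (p : ℝ)⁻¹)⁻¹ ^ 2 * (1 - (if p ∣ d then (1 : ℝ) else 2) / p)) := by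
    intro y
    rw [prod_mul_distrib, prod_pow]
    rfl
  have hsub := PJ_sub hwz
  have hsplit : VV z ^ 2 * PP z d = (VV w ^ 2 * PP w d) *
      ∏ p ∈ PJ z \ PJ w, ((1 - (p : ℝ)⁻¹)⁻¹ ^ 2 * (1 - (if p ∣ d then (1 : ℝ) else 2) / p)) := by
    rw [hfac, hfac, mul_comm, prod_sdiff hsub]
  have h0 : 0 ≤ VV w ^ 2 * PP w d := mul_nonneg (sq_nonneg _) (PP_nonneg w d)
  rw [hsplit, mul_comm]
  apply mul_le_mul_of_nonneg_right _ h0
  obtain ⟨B, hB⟩ : ∃ B : Finset ℕ, B = (PJ z \ PJ w).filter (fun p => p ∣ d) := ⟨_, rfl⟩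
  have hmem : ∀ p ∈ PJ z \ PJ w, p.Prime ∧ w < p := by
    intro p hp
    rw [Finset.mem_sdiff] at hp
    refine ⟨PJ_prime hp.1, ?_⟩
    by_contra h
    apply hp.2
    unfold PJ
    rw [mem_filter, mem_Icc]
    exact ⟨⟨(PJ_prime hp.1).one_lt.le, by omega⟩, PJ_prime hp.1⟩
  have h1 : ∏ p ∈ PJ z \ PJ w, ((1 - (p : ℝ)⁻¹)⁻¹ ^ 2 * (1 - (if p ∣ d then (1 : ℝ) else 2) / p)) ≤
      ∏ p ∈ PJ z \ PJ w, (if p ∣ d then Real.exp (2 / w) else 1) := by
    apply Finset.prod_le_prod
    · intro p hp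
      have h2 : (2 : ℝ) ≤ p := by exact_mod_cast (hmem p hp).1.two_le
      have h3 : 0 ≤ 1 - (if p ∣ d then (1 : ℝ) else 2) / p := by
        split_ifs
        · rw [sub_nonneg, div_le_one (by linarith)]
          linarith
        · rw [sub_nonneg, div_le_one (by linarith)]
          exact h2
      positivity
    · intro p hp
      obtain ⟨hpp, hwp⟩ := hmem p hp
      have hwp' : (w : ℝ) < p := by exact_mod_cast hwp
      have hp0 : (0 : ℝ) < p := by linarith
      have hi : (p : ℝ)⁻¹ ≤ 1 / 2 := by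
        rw [inv_le_comm₀ hp0 (by norm_num)]
        linarith
      have hi0 : 0 < (p : ℝ)⁻¹ := by positivity
      have hq : 0 < 1 - (p : ℝ)⁻¹ := by linarith
      split_ifs with h
      · have e1 : (1 - (p : ℝ)⁻¹)⁻¹ ^ 2 * (1 - 1 / p) = (1 - (p : ℝ)⁻¹)⁻¹ := by
          rw [one_div]
          field_simp
        rw [e1]
        have e2 : (1 - (p : ℝ)⁻¹)⁻¹ ≤ 1 + 2 * (p : ℝ)⁻¹ := by
          rw [inv_le_iff_one_le_mul₀ hq]
          nlinarith
        refine e2.trans ?_
        have e3 := Real.add_one_le_exp (2 * (p : ℝ)⁻¹)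
        have e4 : 2 * (p : ℝ)⁻¹ ≤ 2 / w := by
          rw [← div_eq_mul_inv]
          exact div_le_div_of_nonneg_left (by norm_num) (by linarith) hwp'.le
        have e5 := Real.exp_le_exp.2 e4
        linarith
      · rw [inv_pow, ← div_eq_inv_mul, div_le_one (by positivity)]
        have e1 : (2 : ℝ) / p = 2 * (p : ℝ)⁻¹ := by rw [div_eq_mul_inv]
        rw [e1]
        nlinarith [sq_nonneg ((p : ℝ)⁻¹)]
  refine h1.trans ?_
  rw [← prod_filter, prod_const, ← hB, ← Real.exp_nat_mul]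
  apply Real.exp_le_exp.2
  -- the number of the primes
  have h2 : (w : ℝ) ^ B.card ≤ H := by
    have h3 : ∏ p ∈ B, p ∣ d := by
      apply Finset.prod_primes_dvd
      · intro p hp
        rw [hB, mem_filter] at hp
        exact (hmem p hp.1).1.prime
      · intro p hp
        rw [hB, mem_filter] at hp
        exact hp.2
    have h4 : ∏ p ∈ B, p ≤ d := Nat.le_of_dvd (by omega) h3
    have h5 : w ^ B.card ≤ ∏ p ∈ B, p := by
      rw [← prod_const]
      apply prod_le_prod' 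
      intro p hp
      rw [hB, mem_filter] at hp
      exact (hmem p hp.1).2.le
    exact_mod_cast h5.trans (h4.trans hdH)
  have h6 := Real.log_le_log (by positivity) h2
  rw [Real.log_pow] at h6
  rw [mul_comm, div_mul_eq_mul_div, div_le_div_iff₀ (by linarith) (by positivity)]
  nlinarith

/-- **the average of the singular series of pairs is at most `1`** -/
theorem pair_avg (δ : ℝ) (hδ : 0 < δ) : ∀ᶠ H : ℕ in atTop, ∀ z : ℕ, Real.log H ≤ z → ∀ D : ℕ, D ≤ H →
    VV z ^ 2 * ∑ d ∈ Icc 1 D, PP z d ≤ (1 + δ) * (D + Real.sqrt H) := by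
  have hT : Tendsto (fun n : ℕ => (n : ℝ)) atTop atTop := tendsto_natCast_atTop_atTop
  have hL : Tendsto (fun n : ℕ => Real.log (n : ℝ)) atTop atTop := Real.tendsto_log_atTop.comp hT
  have hw : Tendsto (fun n : ℕ => ⌊Real.log (n : ℝ) / 4⌋₊) atTop atTop :=
    tendsto_nat_floor_atTop.comp (hL.atTop_div_const (by norm_num))
  have hlw : Tendsto (fun n : ℕ => Real.log ((⌊Real.log (n : ℝ) / 4⌋₊ : ℕ) : ℝ)) atTop atTop :=
    Real.tendsto_log_atTop.comp (hT.comp hw)
  filter_upwards [hw.eventually_ge_atTop 2, hlw.eventually_ge_atTop (16 / Real.log (1 + δ)), eventually_ge_atTop 3]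
    with H h1 h2 h3 z hz D hD
  obtain ⟨w, hwd⟩ : ∃ w, w = ⌊Real.log (H : ℝ) / 4⌋₊ := ⟨_, rfl⟩
  rw [← hwd] at h1 h2
  have hH0 : (0 : ℝ) < H := by exact_mod_cast (by omega : 0 < H)
  have hlH : 0 < Real.log (H : ℝ) := Real.log_pos (by exact_mod_cast (by omega : 1 < H))
  have hw2 : (2 : ℝ) ≤ w := by exact_mod_cast h1
  have hw1 : (w : ℝ) ≤ Real.log H / 4 := by rw [hwd]; exact Nat.floor_le (by positivity)
  have hw3 : Real.log H / 4 < w + 1 := by rw [hwd]; exact Nat.lt_floor_add_one _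
  have hwz : w ≤ z := by
    have : (w : ℝ) ≤ z := by linarith
    exact_mod_cast this
  have hlw0 : 0 < Real.log (w : ℝ) := Real.log_pos (by linarith)
  have hR : Real.exp (2 * Real.log H / (w * Real.log w)) ≤ 1 + δ := by
    rw [← Real.exp_log (show 0 < 1 + δ by linarith)]
    apply Real.exp_le_exp.2
    have b1 : 0 < Real.log (1 + δ) := Real.log_pos (by linarith)
    rw [div_le_iff₀ b1] at h2
    rw [div_le_iff₀ (by positivity)]
    have b2 : Real.log H ≤ 8 * w := by linarith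
    nlinarith
  have hVV : 0 ≤ VV w := by linarith [one_le_VV w]
  have hpow : VV w * 2 ^ (PJ w).card ≤ Real.sqrt H := by
    have b1 : VV w ≤ 2 ^ (PJ w).card := VV_le w
    have b2 : (PJ w).card ≤ w := by
      unfold PJ
      refine (card_filter_le _ _).trans ?_
      rw [Nat.card_Icc]
      omega
    have b3 : VV w * 2 ^ (PJ w).card ≤ 4 ^ w := by
      calc VV w * 2 ^ (PJ w).card ≤ 2 ^ (PJ w).card * 2 ^ (PJ w).card := mul_le_mul_of_nonneg_right b1 (by positivity)
        _ = (4 : ℝ) ^ (PJ w).card := by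
            rw [← mul_pow]
            norm_num
        _ ≤ 4 ^ w := pow_le_pow_right₀ (by norm_num) b2
    refine b3.trans ?_
    rw [Real.sqrt_eq_rpow, Real.rpow_def_of_pos hH0, ← Real.rpow_natCast, Real.rpow_def_of_pos (by norm_num)]
    apply Real.exp_le_exp.2
    have b4 : Real.log 4 = 2 * Real.log 2 := by
      rw [show (4 : ℝ) = 2 ^ 2 by norm_num, Real.log_pow]
      norm_num
    have b5 := Real.log_two_lt_d9
    have b6 : (0 : ℝ) < Real.log 2 := Real.log_pos (by norm_num)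
    rw [b4]
    nlinarith
  have hV1 := V1_VV w
  calc VV z ^ 2 * ∑ d ∈ Icc 1 D, PP z d = ∑ d ∈ Icc 1 D, VV z ^ 2 * PP z d := mul_sum _ _ _
    _ ≤ ∑ d ∈ Icc 1 D, Real.exp (2 * Real.log H / (w * Real.log w)) * (VV w ^ 2 * PP w d) := by
        apply sum_le_sum
        intro d hd
        rw [mem_Icc] at hd
        exact raise w z d H h1 hwz hd.1 (hd.2.trans hD)
    _ = Real.exp (2 * Real.log H / (w * Real.log w)) * (VV w ^ 2 * ∑ d ∈ Icc 1 D, PP w d) := by
        rw [mul_sum, mul_sum]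
    _ ≤ (1 + δ) * (VV w ^ 2 * ∑ d ∈ Icc 1 D, PP w d) := by
        apply mul_le_mul_of_nonneg_right hR
        exact mul_nonneg (sq_nonneg _) (sum_nonneg fun d _ => PP_nonneg w d)
    _ ≤ (1 + δ) * (VV w ^ 2 * (V1 w * (D * V1 w + 2 ^ (PJ w).card))) := by
        apply mul_le_mul_of_nonneg_left _ (by linarith)
        exact mul_le_mul_of_nonneg_left (avg_low w D) (sq_nonneg _)
    _ = (1 + δ) * (D * (VV w * V1 w) ^ 2 + (VV w * V1 w) * (VV w * 2 ^ (PJ w).card)) := by ring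
    _ ≤ (1 + δ) * (D + Real.sqrt H) := by
        rw [hV1]
        apply mul_le_mul_of_nonneg_left _ (by linarith)
        linarith

end Pool.Agent.T2H62.ME
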