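import Pool.Agent.T2H62.ME.A

set_option autoImplicit false

/-! # First and second moments of the expected number of random primes in short windows -/

namespace Pool.Agent.T2H62.ME

open Finset Filter Topology MeasureTheory ProbabilityTheory
open Pool.Agent.T2H53.GW
open Pool.Agent.T2H62.MD
open Pool.Agent.H305R2 (VV VV_tendsto)

theorem hT : Tendsto (fun n : ℕ => (n : ℝ)) atTop atTop := tendsto_natCast_atTop_atTop
theorem hL : Tendsto (fun n : ℕ => Real.log (n : ℝ)) atTop atTop := Real.tendsto_log_atTop.comp hT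

/-- the square of a sum -/
theorem sq_sum (f : ℕ → ℝ) (H : ℕ) : (∑ a ∈ Icc 1 H, f a) ^ 2 =
    ∑ a ∈ Icc 1 H, f a ^ 2 + 2 * ∑ a ∈ Icc 1 H, ∑ d ∈ Icc 1 (H - a), f a * f (a + d) := by
  induction H with
  | zero => simp
  | succ H ih =>
    rw [sum_Icc_succ_top (by omega), sum_Icc_succ_top (by omega), sum_Icc_succ_top (by omega)]
    have h1 : ∑ d ∈ Icc 1 (H + 1 - (H + 1)), f (H + 1) * f (H + 1 + d) = 0 := by simp
    have h2 : ∑ a ∈ Icc 1 H, ∑ d ∈ Icc 1 (H + 1 - a), f a * f (a + d) =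
        ∑ a ∈ Icc 1 H, ∑ d ∈ Icc 1 (H - a), f a * f (a + d) + (∑ a ∈ Icc 1 H, f a) * f (H + 1) := by
      rw [sum_mul, ← sum_add_distrib]
      refine sum_congr rfl fun a ha => ?_
      rw [mem_Icc] at ha
      have e1 : H + 1 - a = (H - a) + 1 := by omega
      rw [e1, sum_Icc_succ_top (by omega)]
      have e2 : a + (H - a + 1) = H + 1 := by omega
      rw [e2]
    rw [h1, h2, add_sq, ih]
    ring

/-- the expected number in a window -/
noncomputable def Mw (A : ℝ) (H n : ℕ) : ℝ := ∑ a ∈ Icc 1 H, pr A (n + a)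

theorem Mw_nonneg (A : ℝ) (H n : ℕ) : 0 ≤ Mw A H n := sum_nonneg fun a _ => pr_nonneg A _

theorem shift_sum (f : ℕ → ℝ) (N M a : ℕ) : ∑ n ∈ Ioc N M, f (n + a) = ∑ m ∈ Ioc (N + a) (M + a), f m := by
  rw [← Finset.image_add_right_Ioc N M a, sum_image (fun x _ y _ h => Nat.add_right_cancel h)]

/-- the first moment, one shift -/
theorem one_shift {A : ℝ} (hA : 0 < A) (δ : ℝ) (hδ : 0 < δ) (hδ1 : δ < 1) : ∀ᶠ N : ℕ in atTop, ∀ a : ℕ, a ≤ N →
    ∑ n ∈ Ioc N (2 * N), pr A (n + a) ≤ (1 + δ) * (N / Real.log N) ∧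
    (1 - δ) ^ 2 * (N / Real.log N) ≤ ∑ n ∈ Ioc N (2 * N), pr A (n + a) := by
  obtain ⟨n₀, hn₀⟩ := eventually_atTop.1 (mean_one A hA δ hδ)
  filter_upwards [eventually_ge_atTop (max n₀ 4), hL.eventually_ge_atTop (1 / δ)] with N h1 h2 a ha
  have hN4 : 4 ≤ N := (le_max_right _ _).trans h1
  have hN0 : (0 : ℝ) < N := by exact_mod_cast (by omega : 0 < N)
  have hN4r : (4 : ℝ) ≤ N := by exact_mod_cast hN4
  have haN : (a : ℝ) ≤ N := by exact_mod_cast ha
  have hℓ : 0 < Real.log (N : ℝ) := Real.log_pos (by linarith)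
  have h3 := hn₀ (N + a) (by have := le_max_left n₀ 4; omega) (2 * N + a) (by
    have b1 : (((N + a : ℕ) : ℝ)) ^ (1 / 2 : ℝ) ≤ N := by
      rw [← Real.sqrt_eq_rpow, Real.sqrt_le_left hN0.le]
      push_cast
      nlinarith
    push_cast at b1 ⊢
    linarith) (by omega)
  rw [← shift_sum] at h3
  have e1 : (((2 * N + a : ℕ) : ℝ) - ((N + a : ℕ) : ℝ)) = N := by push_cast; ring
  rw [e1] at h3
  have hl1 : Real.log N ≤ Real.log ((N + a : ℕ) : ℝ) := Real.log_le_log hN0 (by push_cast; linarith [(Nat.cast_nonneg a : (0 : ℝ) ≤ a)])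
  have hl2 : Real.log ((N + a : ℕ) : ℝ) ≤ Real.log N + 1 := by
    have b1 : ((N + a : ℕ) : ℝ) ≤ 2 * N := by push_cast; linarith
    have b2 := Real.log_le_log (by exact_mod_cast (by omega : 0 < N + a)) b1
    rw [Real.log_mul (by norm_num) hN0.ne'] at b2
    have b3 := Real.log_two_lt_d9
    linarith
  have h4 := abs_le.1 h3
  constructor
  · have b1 : (N : ℝ) / Real.log ((N + a : ℕ) : ℝ) ≤ N / Real.log N := div_le_div_of_nonneg_left hN0.le hℓ hl1
    have b2 : (1 + δ) * ((N : ℝ) / Real.log ((N + a : ℕ) : ℝ)) ≤ (1 + δ) * (N / Real.log N) :=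
      mul_le_mul_of_nonneg_left b1 (by linarith)
    linarith [h4.2]
  · have b1 : (1 - δ) * (N / Real.log N) ≤ (N : ℝ) / Real.log ((N + a : ℕ) : ℝ) := by
      rw [← mul_div_assoc, div_le_div_iff₀ hℓ (by linarith)]
      have b2 : (1 - δ) * Real.log ((N + a : ℕ) : ℝ) ≤ Real.log N := by
        rw [div_le_iff₀ hδ] at h2
        nlinarith
      nlinarith
    have b3 : (1 - δ) * ((1 - δ) * (N / Real.log N)) ≤ (1 - δ) * ((N : ℝ) / Real.log ((N + a : ℕ) : ℝ)) :=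
      mul_le_mul_of_nonneg_left b1 (by linarith)
    have e2 : (1 - δ) ^ 2 * ((N : ℝ) / Real.log N) = (1 - δ) * ((1 - δ) * (N / Real.log N)) := by ring
    rw [e2]
    linarith [h4.1]

/-- the pairs -/
theorem pair_bd {A : ℝ} (hA : 0 < A) (N H a d : ℕ) (hN : 3 ≤ N) (hHN : H ≤ N) (ha : 1 ≤ a) (hd : 1 ≤ d) (had : a + d ≤ H) :
    ∑ n ∈ Ioc N (2 * N), pr A (n + a) * pr A (n + (a + d)) ≤
      (VV ⌊A * Real.log (4 * N)⌋₊ / Real.log N) ^ 2 * (N * PP ⌊A * Real.log N⌋₊ d + 3 ^ (PJ ⌊A * Real.log (4 * N)⌋₊).card) := by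
  classical
  obtain ⟨z, hz⟩ : ∃ z, z = ⌊A * Real.log (N : ℝ)⌋₊ := ⟨_, rfl⟩
  obtain ⟨z', hz'⟩ : ∃ z', z' = ⌊A * Real.log (4 * (N : ℝ))⌋₊ := ⟨_, rfl⟩
  have hN0 : (0 : ℝ) < N := by exact_mod_cast (by omega : 0 < N)
  have hzz : z ≤ z' := by
    rw [hz, hz']
    apply Nat.floor_le_floor
    apply mul_le_mul_of_nonneg_left _ hA.le
    exact Real.log_le_log hN0 (by linarith)
  rw [← hz, ← hz']
  have hcard : ({a, a + d} : Finset ℕ).card = 2 := card_pair a d hd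
  have hT : ({a, a + d} : Finset ℕ) ⊆ Icc 1 H := by
    intro x hx
    rw [mem_insert, mem_singleton] at hx
    rw [mem_Icc]
    omega
  have h1 : ∀ n ∈ Ioc N (2 * N), pr A (n + a) * pr A (n + (a + d)) ≤
      if ∀ p ∈ PJ z, n % p ∉ XX {a, a + d} p then (VV z' / Real.log N) ^ 2 else 0 := by
    intro n hn
    rw [mem_Ioc] at hn
    have h2 := tuple_up A hA {a, a + d} H hT N n hN hHN hn.1 hn.2
    rw [prod_pair (by omega), hcard] at h2
    rw [hz, hz']
    exact h2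
  refine (sum_le_sum h1).trans ?_
  rw [← sum_filter, sum_const, nsmul_eq_mul, mul_comm]
  apply mul_le_mul_of_nonneg_left _ (sq_nonneg _)
  have h3 := (abs_le.1 (leg_tuple {a, a + d} z z' hzz N (2 * N) (by omega))).2
  rw [PP_eq a d z hd, hcard] at h3
  have h4 : ((Ioc N (2 * N)).filter (fun n => ∀ p ∈ PJ z, n % p ∉ XX {a, a + d} p)).card = NX (PJ z) (XX {a, a + d}) 1 0 N (2 * N) := by
    unfold NX
    congr 1
    apply filter_congr
    intro n _
    constructor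
    · intro h5
      exact ⟨Nat.modEq_one, h5⟩
    · intro h5
      exact h5.2
  rw [h4]
  have e1 : (((2 * N : ℕ) : ℝ) - N) = N := by push_cast; ring
  have e2 : ((2 : ℕ) : ℝ) + 1 = 3 := by norm_num
  rw [e1, e2] at h3
  linarith

theorem sum_sub_le (H : ℕ) : ∑ a ∈ Icc 1 H, (((H - a : ℕ) : ℝ)) ≤ (H : ℝ) ^ 2 / 2 := by
  induction H with
  | zero => simp
  | succ H ih =>
    rw [sum_Icc_succ_top (by omega)]
    have h1 : ∑ a ∈ Icc 1 H, (((H + 1 - a : ℕ) : ℝ)) = ∑ a ∈ Icc 1 H, (((H - a : ℕ) : ℝ)) + H := by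
      have h2 : ∀ a ∈ Icc 1 H, (((H + 1 - a : ℕ) : ℝ)) = ((H - a : ℕ) : ℝ) + 1 := by
        intro a ha
        rw [mem_Icc] at ha
        have : H + 1 - a = (H - a) + 1 := by omega
        rw [this]
        push_cast
        ring
      rw [sum_congr rfl h2, sum_add_distrib, sum_const, Nat.card_Icc, nsmul_eq_mul]
      simp
    rw [h1, Nat.sub_self]
    push_cast
    nlinarith

/-- the second moment -/
theorem second {A : ℝ} (hA : 0 < A) (lam δ : ℝ) (hl : 0 < lam) (hδ : 0 < δ) : ∀ᶠ N : ℕ in atTop,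
    ∑ n ∈ Ioc N (2 * N), Mw A ⌊lam * Real.log N⌋₊ n ^ 2 ≤ (lam ^ 2 + δ) * N := by
  classical
  obtain ⟨K, hK⟩ : ∃ K, K = 4 + 5 * lam ^ 2 + 2 * lam := ⟨_, rfl⟩
  have hK0 : 0 < K := by rw [hK]; positivity
  obtain ⟨e, he⟩ : ∃ e, e = min 1 (δ / K) := ⟨_, rfl⟩
  have he0 : 0 < e := by rw [he]; exact lt_min one_pos (by positivity)
  have he1 : e ≤ 1 := by rw [he]; exact min_le_left _ _
  have heK : e * K ≤ δ := by
    have : e ≤ δ / K := by rw [he]; exact min_le_right _ _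
    rwa [le_div_iff₀ hK0] at this
  have hH : Tendsto (fun N : ℕ => ⌊lam * Real.log (N : ℝ)⌋₊) atTop atTop :=
    tendsto_nat_floor_atTop.comp (hL.const_mul_atTop hl)
  have hz : Tendsto (fun N : ℕ => ⌊A * Real.log (N : ℝ)⌋₊) atTop atTop :=
    tendsto_nat_floor_atTop.comp (hL.const_mul_atTop hA)
  -- the ratio of the products
  have hratio : Tendsto (fun N : ℕ => VV ⌊A * Real.log (4 * (N : ℝ))⌋₊ / VV ⌊A * Real.log (N : ℝ)⌋₊) atTop (𝓝 1) := by
    apply VV_ratio hz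
    filter_upwards [hL.eventually_ge_atTop (2 + 2 / A), eventually_ge_atTop 3, hz.eventually_ge_atTop 1] with N h1 h2 h3
    have hN0 : (0 : ℝ) < N := by exact_mod_cast (by omega : 0 < N)
    have h4 : Real.log (4 * (N : ℝ)) = 2 * Real.log 2 + Real.log N := by
      rw [Real.log_mul (by norm_num) hN0.ne', show (4 : ℝ) = 2 ^ 2 by norm_num, Real.log_pow]
      norm_num
    have h5 := Real.log_two_lt_d9
    have h6 : (0 : ℝ) < Real.log 2 := Real.log_pos (by norm_num)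
    constructor
    · apply Nat.floor_le_floor
      apply mul_le_mul_of_nonneg_left _ hA.le
      rw [h4]
      linarith
    · have h7 : A * Real.log N < ⌊A * Real.log (N : ℝ)⌋₊ + 1 := Nat.lt_floor_add_one _
      have h8 : ((⌊A * Real.log (4 * (N : ℝ))⌋₊ : ℕ) : ℝ) ≤ A * Real.log (4 * N) := Nat.floor_le (by
        rw [h4]
        have : 0 ≤ Real.log (N : ℝ) := by
          have : 0 < 2 / A := by positivity
          linarith
        positivity)
      have h9 : A * (2 + 2 / A) ≤ A * Real.log N := mul_le_mul_of_nonneg_left h1 hA.le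
      have h10 : A * (2 + 2 / A) = 2 * A + 2 := by field_simp
      have h11 : ((⌊A * Real.log (4 * (N : ℝ))⌋₊ : ℕ) : ℝ) < ((2 * ⌊A * Real.log (N : ℝ)⌋₊ + 1 : ℕ) : ℝ) := by
        have h8' : ((⌊A * Real.log (4 * (N : ℝ))⌋₊ : ℕ) : ℝ) ≤ A * (2 * Real.log 2 + Real.log N) := h8.trans (by rw [h4])
        have h13 : A * (2 * Real.log 2) ≤ A * 2 := mul_le_mul_of_nonneg_left (by linarith) hA.le
        push_cast
        linarith
      have h12 : ⌊A * Real.log (4 * (N : ℝ))⌋₊ < 2 * ⌊A * Real.log (N : ℝ)⌋₊ + 1 := by exact_mod_cast h11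
      omega
  have hr2 := (hratio.pow 2).eventually_le_const (show (1 : ℝ) ^ 2 < 1 + e by rw [one_pow]; linarith)
  have hz2 : ∀ᶠ N : ℕ in atTop, Real.log ((⌊lam * Real.log (N : ℝ)⌋₊ : ℕ) : ℝ) ≤ (⌊A * Real.log (N : ℝ)⌋₊ : ℕ) := by
    have g : ∀ᶠ u : ℝ in atTop, Real.log (lam * u) ≤ A * u - 1 := by
      have h3 := (Real.isLittleO_log_id_atTop).bound (show (0 : ℝ) < A / 2 by positivity)
      filter_upwards [h3, eventually_gt_atTop 0, eventually_ge_atTop (2 * (Real.log lam + 1) / A), eventually_ge_atTop 1] with u h1 h2 h4 h5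
      rw [Real.log_mul hl.ne' h2.ne']
      simp only [id, Real.norm_eq_abs] at h1
      rw [abs_of_nonneg h2.le] at h1
      have h6 := (le_abs_self _).trans h1
      rw [div_le_iff₀ hA] at h4
      linarith
    filter_upwards [hL.eventually g, hH.eventually_ge_atTop 1, hL.eventually_gt_atTop 0] with N h1 h2 h3
    have h4 : A * Real.log N < ⌊A * Real.log (N : ℝ)⌋₊ + 1 := Nat.lt_floor_add_one _
    have h5 : ((⌊lam * Real.log (N : ℝ)⌋₊ : ℕ) : ℝ) ≤ lam * Real.log N := Nat.floor_le (by positivity)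
    have h6 := Real.log_le_log (by exact_mod_cast h2) h5
    linarith
  have hsq : ∀ᶠ N : ℕ in atTop, 2 * lam * Real.sqrt (lam * Real.log N) ≤ e * Real.log N := by
    have g : ∀ᶠ u : ℝ in atTop, 2 * lam * Real.sqrt (lam * u) ≤ e * u := by
      filter_upwards [eventually_ge_atTop ((2 * lam / e) ^ 2 * lam), eventually_gt_atTop 0] with u h1 h2
      have h3 : Real.sqrt (lam * u) ≤ e / (2 * lam) * u := by
        apply Real.sqrt_le_iff.2
        refine ⟨by positivity, ?_⟩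
        have h4 : (e / (2 * lam) * u) ^ 2 = (e / (2 * lam)) ^ 2 * u * u := by ring
        rw [h4]
        apply mul_le_mul_of_nonneg_right _ h2.le
        have h5 : (e / (2 * lam)) ^ 2 * ((2 * lam / e) ^ 2 * lam) = lam := by field_simp
        calc lam = (e / (2 * lam)) ^ 2 * ((2 * lam / e) ^ 2 * lam) := h5.symm
          _ ≤ _ := mul_le_mul_of_nonneg_left h1 (sq_nonneg _)
      calc 2 * lam * Real.sqrt (lam * u) ≤ 2 * lam * (e / (2 * lam) * u) := mul_le_mul_of_nonneg_left h3 (by positivity)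
        _ = e * u := by field_simp
    exact hL.eventually g
  filter_upwards [hr2, hH.eventually (pair_avg e he0), hz2, hsq, err_tuple A hA 2 (1 / 2) e (by norm_num) he0,
    one_shift hA (1 / 2) (by norm_num) (by norm_num), (eventually_forall_ge_atTop.2 (pr_small A hA e he0)),
    log_pow_small 1 lam 1 one_pos hl, eventually_ge_atTop 3, hH.eventually_ge_atTop 1]
    with N k1 k2 k3 k4 k5 k6 k7 k8 k9 k10
  obtain ⟨H, hHd⟩ : ∃ H, H = ⌊lam * Real.log (N : ℝ)⌋₊ := ⟨_, rfl⟩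
  obtain ⟨z, hzd⟩ : ∃ z, z = ⌊A * Real.log (N : ℝ)⌋₊ := ⟨_, rfl⟩
  obtain ⟨z', hzd'⟩ : ∃ z', z' = ⌊A * Real.log (4 * (N : ℝ))⌋₊ := ⟨_, rfl⟩
  obtain ⟨ℓ, hℓ⟩ : ∃ ℓ, ℓ = Real.log (N : ℝ) := ⟨_, rfl⟩
  rw [← hHd] at k2 k3 k10 ⊢
  rw [← hzd, ← hzd'] at k1
  rw [← hzd] at k3
  rw [← hzd'] at k5
  rw [← hℓ] at k4 k6 k8
  have hN0 : (0 : ℝ) < N := by exact_mod_cast (by omega : 0 < N)
  have hN3 : (3 : ℝ) ≤ N := by exact_mod_cast k9
  have hℓ0 : 0 < ℓ := by rw [hℓ]; exact Real.log_pos (by linarith)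
  have hH1 : (H : ℝ) ≤ lam * ℓ := by rw [hHd, hℓ]; exact Nat.floor_le (by rw [← hℓ]; positivity)
  have hHN : H ≤ N := by
    have : (H : ℝ) ≤ N := by
      rw [pow_one, Real.rpow_one] at k8
      exact hH1.trans k8
    exact_mod_cast this
  have hH0 : (0 : ℝ) ≤ H := Nat.cast_nonneg _
  have hVz : 0 < VV z := by linarith [one_le_VV z]
  have hVz' : 0 < VV z' := by linarith [one_le_VV z']
  -- the diagonal
  have hdiag : ∑ a ∈ Icc 1 H, ∑ n ∈ Ioc N (2 * N), pr A (n + a) ^ 2 ≤ 2 * lam * e * N := by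
    have h1 : ∀ a ∈ Icc 1 H, ∑ n ∈ Ioc N (2 * N), pr A (n + a) ^ 2 ≤ e * (3 / 2 * (N / ℓ)) := by
      intro a ha
      rw [mem_Icc] at ha
      have h2 := (k6 a (ha.2.trans hHN)).1
      have h3 : ∀ n ∈ Ioc N (2 * N), pr A (n + a) ^ 2 ≤ e * pr A (n + a) := by
        intro n hn
        rw [mem_Ioc] at hn
        rw [sq]
        exact mul_le_mul_of_nonneg_right (k7 (n + a) (by omega)) (pr_nonneg A _)
      refine (sum_le_sum h3).trans ?_
      rw [← mul_sum]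
      apply mul_le_mul_of_nonneg_left _ he0.le
      refine h2.trans (le_of_eq ?_)
      norm_num
    refine (sum_le_sum h1).trans ?_
    rw [sum_const, Nat.card_Icc, nsmul_eq_mul]
    have e1 : ((H + 1 - 1 : ℕ) : ℝ) = H := by simp
    rw [e1]
    calc (H : ℝ) * (e * (3 / 2 * (N / ℓ))) ≤ (lam * ℓ) * (e * (3 / 2 * (N / ℓ))) := mul_le_mul_of_nonneg_right hH1 (by positivity)
      _ = 3 / 2 * lam * e * N := by field_simp
      _ ≤ 2 * lam * e * N := by
          have : 0 ≤ lam * e * N := by positivity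
          linarith
  -- the pairs
  have hoff : ∑ a ∈ Icc 1 H, ∑ d ∈ Icc 1 (H - a), ∑ n ∈ Ioc N (2 * N), pr A (n + a) * pr A (n + (a + d)) ≤
      (VV z' / ℓ) ^ 2 * (N * ((1 + e) * ((H : ℝ) ^ 2 / 2 + H * Real.sqrt H) / VV z ^ 2) + H ^ 2 * 3 ^ (PJ z').card) := by
    have h1 : ∀ a ∈ Icc 1 H, ∑ d ∈ Icc 1 (H - a), ∑ n ∈ Ioc N (2 * N), pr A (n + a) * pr A (n + (a + d)) ≤
        (VV z' / ℓ) ^ 2 * (N * ((1 + e) * (((H - a : ℕ) : ℝ) + Real.sqrt H) / VV z ^ 2) + H * 3 ^ (PJ z').card) := by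
      intro a ha
      rw [mem_Icc] at ha
      have h2 : ∀ d ∈ Icc 1 (H - a), ∑ n ∈ Ioc N (2 * N), pr A (n + a) * pr A (n + (a + d)) ≤
          (VV z' / ℓ) ^ 2 * (N * PP z d + 3 ^ (PJ z').card) := by
        intro d hd
        rw [mem_Icc] at hd
        have := pair_bd hA N H a d k9 hHN ha.1 hd.1 (by omega)
        rw [← hzd, ← hzd', ← hℓ] at this
        exact this
      refine (sum_le_sum h2).trans ?_
      rw [← mul_sum, sum_add_distrib, ← mul_sum, sum_const, Nat.card_Icc, nsmul_eq_mul]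
      apply mul_le_mul_of_nonneg_left _ (sq_nonneg _)
      apply add_le_add
      · apply mul_le_mul_of_nonneg_left _ hN0.le
        rw [le_div_iff₀ (by positivity), mul_comm]
        exact k2 z k3 (H - a) (by omega)
      · apply mul_le_mul_of_nonneg_right _ (by positivity)
        exact_mod_cast (by omega : H - a + 1 - 1 ≤ H)
    refine (sum_le_sum h1).trans ?_
    rw [← mul_sum, sum_add_distrib, sum_const, Nat.card_Icc, nsmul_eq_mul, ← mul_sum, ← sum_div, ← mul_sum, sum_add_distrib, sum_const,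
      Nat.card_Icc, nsmul_eq_mul]
    have e1 : ((H + 1 - 1 : ℕ) : ℝ) = H := by simp
    rw [e1]
    apply mul_le_mul_of_nonneg_left _ (sq_nonneg _)
    apply add_le_add
    · apply mul_le_mul_of_nonneg_left _ hN0.le
      apply div_le_div_of_nonneg_right _ (by positivity)
      apply mul_le_mul_of_nonneg_left _ (by linarith)
      linarith [sum_sub_le H]
    · rw [sq]
      exact le_of_eq (by ring)
  have hexp : ∑ n ∈ Ioc N (2 * N), Mw A H n ^ 2 = ∑ a ∈ Icc 1 H, ∑ n ∈ Ioc N (2 * N), pr A (n + a) ^ 2 +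
      2 * ∑ a ∈ Icc 1 H, ∑ d ∈ Icc 1 (H - a), ∑ n ∈ Ioc N (2 * N), pr A (n + a) * pr A (n + (a + d)) := by
    unfold Mw
    have h1 : ∀ n ∈ Ioc N (2 * N), (∑ a ∈ Icc 1 H, pr A (n + a)) ^ 2 = ∑ a ∈ Icc 1 H, pr A (n + a) ^ 2 +
        2 * ∑ a ∈ Icc 1 H, ∑ d ∈ Icc 1 (H - a), pr A (n + a) * pr A (n + (a + d)) := fun n _ => sq_sum (fun a => pr A (n + a)) H
    rw [sum_congr rfl h1, sum_add_distrib, sum_comm, ← mul_sum]
    congr 2
    rw [sum_comm]
    refine sum_congr rfl fun a _ => ?_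
    rw [sum_comm]
  rw [hexp]
  -- the total
  have hρ : (VV z' / VV z) ^ 2 ≤ 1 + e := k1
  have hH2 : (H : ℝ) ^ 2 + 2 * H * Real.sqrt H ≤ (lam ^ 2 + e) * ℓ ^ 2 := by
    have b1 : (H : ℝ) ^ 2 ≤ (lam * ℓ) ^ 2 := pow_le_pow_left₀ hH0 hH1 2
    have b2 : Real.sqrt H ≤ Real.sqrt (lam * ℓ) := Real.sqrt_le_sqrt hH1
    have b3 : 2 * (H : ℝ) * Real.sqrt H ≤ 2 * (lam * ℓ) * Real.sqrt (lam * ℓ) := by
      apply mul_le_mul (by linarith) b2 (Real.sqrt_nonneg _) (by positivity)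
    have b4 : 2 * (lam * ℓ) * Real.sqrt (lam * ℓ) ≤ e * ℓ ^ 2 := by
      calc 2 * (lam * ℓ) * Real.sqrt (lam * ℓ) = (2 * lam * Real.sqrt (lam * ℓ)) * ℓ := by ring
        _ ≤ (e * ℓ) * ℓ := mul_le_mul_of_nonneg_right k4 hℓ0.le
        _ = e * ℓ ^ 2 := by ring
    nlinarith
  have hmain : 2 * ((VV z' / ℓ) ^ 2 * (N * ((1 + e) * ((H : ℝ) ^ 2 / 2 + H * Real.sqrt H) / VV z ^ 2) + H ^ 2 * 3 ^ (PJ z').card)) ≤
      (1 + e) * (1 + e) * (lam ^ 2 + e) * N + 2 * lam ^ 2 * e * N := by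
    have c1 : 2 * ((VV z' / ℓ) ^ 2 * (N * ((1 + e) * ((H : ℝ) ^ 2 / 2 + H * Real.sqrt H) / VV z ^ 2) + H ^ 2 * 3 ^ (PJ z').card)) =
        (VV z' / VV z) ^ 2 * (1 + e) * (((H : ℝ) ^ 2 + 2 * H * Real.sqrt H) / ℓ ^ 2) * N +
          2 * ((H / ℓ) ^ 2 * (VV z' ^ 2 * 3 ^ (PJ z').card)) := by
      field_simp
    rw [c1]
    apply add_le_add
    · apply mul_le_mul_of_nonneg_right _ hN0.le
      have c2 : ((H : ℝ) ^ 2 + 2 * H * Real.sqrt H) / ℓ ^ 2 ≤ lam ^ 2 + e := by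
        rw [div_le_iff₀ (by positivity)]
        exact hH2
      apply mul_le_mul _ c2 (by positivity) (by positivity)
      exact mul_le_mul_of_nonneg_right hρ (by positivity)
    · have c3 : (H / ℓ) ^ 2 ≤ lam ^ 2 := by
        apply pow_le_pow_left₀ (by positivity)
        rw [div_le_iff₀ hℓ0]
        exact hH1
      have c4 : VV z' ^ 2 * 3 ^ (PJ z').card ≤ e * N := by
        have c5 : ((2 : ℕ) : ℝ) + 1 = 3 := by norm_num
        rw [c5] at k5
        refine k5.trans ?_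
        apply mul_le_mul_of_nonneg_left _ he0.le
        calc (N : ℝ) ^ (1 / 2 : ℝ) ≤ (N : ℝ) ^ (1 : ℝ) := Real.rpow_le_rpow_of_exponent_le (by linarith) (by norm_num)
          _ = N := Real.rpow_one _
      calc 2 * ((H / ℓ) ^ 2 * (VV z' ^ 2 * 3 ^ (PJ z').card)) ≤ 2 * (lam ^ 2 * (e * N)) := by
            apply mul_le_mul_of_nonneg_left _ (by norm_num)
            exact mul_le_mul c3 c4 (by positivity) (by positivity)
        _ = 2 * lam ^ 2 * e * N := by ring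
  have hfin : (1 + e) * (1 + e) * (lam ^ 2 + e) + 2 * lam ^ 2 * e + 2 * lam * e ≤ lam ^ 2 + δ := by
    refine le_trans ?_ (add_le_add_right heK (lam ^ 2))
    rw [hK]
    have c1 : e ^ 2 ≤ e := by nlinarith
    have c2 : e ^ 3 ≤ e := by
      calc e ^ 3 = e ^ 2 * e := by ring
        _ ≤ 1 * e := mul_le_mul_of_nonneg_right (by nlinarith) he0.le
        _ = e := one_mul _
    have c3 : lam ^ 2 * e ^ 2 ≤ lam ^ 2 * e := mul_le_mul_of_nonneg_left c1 (sq_nonneg _)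
    nlinarith
  have hfin2 := mul_le_mul_of_nonneg_right hfin hN0.le
  have h2off := mul_le_mul_of_nonneg_left hoff (show (0 : ℝ) ≤ 2 by norm_num)
  linarith

/-- the first moment -/
theorem first {A : ℝ} (hA : 0 < A) (lam δ : ℝ) (hl : 0 < lam) (hδ : 0 < δ) : ∀ᶠ N : ℕ in atTop,
    (lam - δ) * N ≤ ∑ n ∈ Ioc N (2 * N), Mw A ⌊lam * Real.log N⌋₊ n := by
  obtain ⟨e, he⟩ : ∃ e, e = min (1 / 2) (δ / (1 + 2 * lam)) := ⟨_, rfl⟩
  have he0 : 0 < e := by rw [he]; exact lt_min (by norm_num) (by positivity)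
  have he1 : e ≤ 1 / 2 := by rw [he]; exact min_le_left _ _
  have heδ : e * (1 + 2 * lam) ≤ δ := by
    have : e ≤ δ / (1 + 2 * lam) := by rw [he]; exact min_le_right _ _
    rwa [le_div_iff₀ (by positivity)] at this
  filter_upwards [one_shift hA e he0 (by linarith), hL.eventually_ge_atTop (1 / e), log_pow_small 1 lam 1 one_pos hl,
    eventually_ge_atTop 3, hL.eventually_gt_atTop 0] with N k1 k2 k3 k4 k5
  obtain ⟨H, hHd⟩ : ∃ H, H = ⌊lam * Real.log (N : ℝ)⌋₊ := ⟨_, rfl⟩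
  obtain ⟨ℓ, hℓ⟩ : ∃ ℓ, ℓ = Real.log (N : ℝ) := ⟨_, rfl⟩
  rw [← hHd]
  rw [← hℓ] at k1 k2 k3 k5
  have hN0 : (0 : ℝ) < N := by exact_mod_cast (by omega : 0 < N)
  have hH1 : (H : ℝ) ≤ lam * ℓ := by rw [hHd, hℓ]; exact Nat.floor_le (by rw [← hℓ]; positivity)
  have hH2 : lam * ℓ < H + 1 := by rw [hHd, hℓ]; exact Nat.lt_floor_add_one _
  have hHN : H ≤ N := by
    have : (H : ℝ) ≤ N := by
      rw [pow_one, Real.rpow_one] at k3
      exact hH1.trans k3
    exact_mod_cast this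
  have h1 : ∑ n ∈ Ioc N (2 * N), Mw A H n = ∑ a ∈ Icc 1 H, ∑ n ∈ Ioc N (2 * N), pr A (n + a) := by
    unfold Mw
    exact sum_comm
  rw [h1]
  have h2 : ∑ a ∈ Icc 1 H, (1 - e) ^ 2 * (N / ℓ) ≤ ∑ a ∈ Icc 1 H, ∑ n ∈ Ioc N (2 * N), pr A (n + a) := by
    apply sum_le_sum
    intro a ha
    rw [mem_Icc] at ha
    exact (k1 a (ha.2.trans hHN)).2
  refine le_trans ?_ h2
  rw [sum_const, Nat.card_Icc, nsmul_eq_mul]
  have e1 : ((H + 1 - 1 : ℕ) : ℝ) = H := by simp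
  rw [e1]
  rw [div_le_iff₀ he0] at k2
  have h3 : (lam - e) * ℓ ≤ H := by nlinarith
  have h4 : (1 - 2 * e) ≤ (1 - e) ^ 2 := by nlinarith
  rcases le_or_gt lam δ with hc | hc
  · have : (lam - δ) * (N : ℝ) ≤ 0 := mul_nonpos_of_nonpos_of_nonneg (by linarith) hN0.le
    refine this.trans ?_
    have : 0 ≤ (1 - e) ^ 2 := sq_nonneg _
    positivity
  · have h5 : lam - δ ≤ (lam - e) * (1 - 2 * e) := by nlinarith
    have h6 : 0 < lam - e := by nlinarith
    calc (lam - δ) * (N : ℝ) ≤ (lam - e) * (1 - 2 * e) * N := mul_le_mul_of_nonneg_right h5 hN0.le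
      _ ≤ (lam - e) * (1 - e) ^ 2 * N := by
          apply mul_le_mul_of_nonneg_right _ hN0.le
          exact mul_le_mul_of_nonneg_left h4 h6.le
      _ = ((lam - e) * ℓ) * ((1 - e) ^ 2 * (N / ℓ)) := by field_simp
      _ ≤ H * ((1 - e) ^ 2 * (N / ℓ)) := mul_le_mul_of_nonneg_right h3 (by positivity)

/-- **the mean square deviation of the expected number** -/
theorem msd {A : ℝ} (hA : 0 < A) (lam δ : ℝ) (hl : 0 < lam) (hδ : 0 < δ) : ∀ᶠ N : ℕ in atTop,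
    ∑ n ∈ Ioc N (2 * N), (Mw A ⌊lam * Real.log N⌋₊ n - lam) ^ 2 ≤ δ * N := by
  filter_upwards [second hA lam (δ / 2) hl (by positivity), first hA lam (δ / (4 * lam)) hl (by positivity)] with N h1 h2
  have h3 : ∑ n ∈ Ioc N (2 * N), (Mw A ⌊lam * Real.log N⌋₊ n - lam) ^ 2 = ∑ n ∈ Ioc N (2 * N), Mw A ⌊lam * Real.log N⌋₊ n ^ 2 -
      2 * lam * ∑ n ∈ Ioc N (2 * N), Mw A ⌊lam * Real.log N⌋₊ n + lam ^ 2 * N := by
    rw [mul_sum, ← sum_sub_distrib]
    have h4 : (lam ^ 2 * (N : ℝ)) = ∑ n ∈ Ioc N (2 * N), lam ^ 2 := by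
      rw [sum_const, Nat.card_Ioc, nsmul_eq_mul]
      have : 2 * N - N = N := by omega
      rw [this]
      ring
    rw [h4, ← sum_add_distrib]
    refine sum_congr rfl fun n _ => ?_
    ring
  rw [h3]
  have h5 : 2 * lam * ((lam - δ / (4 * lam)) * N) ≤ 2 * lam * ∑ n ∈ Ioc N (2 * N), Mw A ⌊lam * Real.log N⌋₊ n :=
    mul_le_mul_of_nonneg_left h2 (by positivity)
  have h6 : 2 * lam * ((lam - δ / (4 * lam)) * N) = 2 * lam ^ 2 * N - δ / 2 * N := by
    field_simp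
    ring
  rw [h6] at h5
  linarith

end Pool.Agent.T2H62.ME
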