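import Pool.Agent.T2H62.ME.B
import Pool.Agent.T2H62.MD.U

set_option autoImplicit false

/-! # The number of the empty short windows -/

namespace Pool.Agent.T2H62.ME

open Finset Filter Topology MeasureTheory ProbabilityTheory
open Pool.Agent.T2H53.GW
open Pool.Agent.T2H62.MD
open Pool.Agent.H305R2 (VV VV_tendsto)

variable {Ω : Type*} [MeasurableSpace Ω] {μ : Measure Ω} [IsProbabilityMeasure μ] {S : ℕ → Set Ω}

omit [IsProbabilityMeasure μ] in
theorem indep_compl (hi : iIndepSet S μ) : iIndepSet (fun n => (S n)ᶜ) μ := by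
  have h := (hi : iIndep (fun i => MeasurableSpace.generateFrom {S i}) μ)
  have h2 : iIndep (fun i => MeasurableSpace.generateFrom {(S i)ᶜ}) μ := by
    refine iIndep_of_iIndep_of_le h fun i => ?_
    apply MeasurableSpace.generateFrom_le
    intro t ht
    rw [Set.mem_singleton_iff] at ht
    rw [ht]
    exact (MeasurableSpace.measurableSet_generateFrom (Set.mem_singleton _)).compl
  exact h2

/-- products and exponentials -/
theorem prod_exp (I : Finset ℕ) (x : ℕ → ℝ) (w : ℝ) (h0 : ∀ i ∈ I, 0 ≤ x i) (hw : ∀ i ∈ I, x i ≤ w) (hw2 : w ≤ 1 / 2) :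
    |∏ i ∈ I, (1 - x i) - Real.exp (-(∑ i ∈ I, x i))| ≤ w * ∑ i ∈ I, x i := by
  have hup : ∏ i ∈ I, (1 - x i) ≤ Real.exp (-(∑ i ∈ I, x i)) := by
    rw [← sum_neg_distrib, Real.exp_sum]
    apply Finset.prod_le_prod
    · intro i hi
      linarith [hw i hi]
    · intro i _
      have := Real.add_one_le_exp (-(x i))
      linarith
  have hlow : Real.exp (-(∑ i ∈ I, x i) - ∑ i ∈ I, x i ^ 2) ≤ ∏ i ∈ I, (1 - x i) := by
    have e1 : -(∑ i ∈ I, x i) - ∑ i ∈ I, x i ^ 2 = ∑ i ∈ I, (-(x i + x i ^ 2)) := by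
      rw [sum_neg_distrib, sum_add_distrib]
      ring
    rw [e1, Real.exp_sum]
    apply Finset.prod_le_prod
    · intro i _
      exact (Real.exp_pos _).le
    · intro i hi
      have h1 := h0 i hi
      have h2 : x i ≤ 1 / 2 := (hw i hi).trans hw2
      rw [Real.exp_neg, inv_le_comm₀ (Real.exp_pos _) (by linarith)]
      have h3 := Real.quadratic_le_exp_of_nonneg (show 0 ≤ x i + x i ^ 2 by positivity)
      refine le_trans ?_ h3
      rw [inv_le_iff_one_le_mul₀ (by linarith)]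
      have h4 : 0 ≤ x i ^ 2 := sq_nonneg _
      nlinarith [mul_nonneg h4 h1, mul_nonneg h4 h4, mul_nonneg h4 (show 0 ≤ 1 / 2 - x i by linarith),
        mul_nonneg (mul_nonneg h4 h1) (show 0 ≤ 1 / 2 - x i by linarith), mul_nonneg (mul_nonneg h4 h4) (show 0 ≤ 1 / 2 - x i by linarith)]
  have hsq : ∑ i ∈ I, x i ^ 2 ≤ w * ∑ i ∈ I, x i := by
    rw [mul_sum]
    apply sum_le_sum
    intro i hi
    rw [sq]
    exact mul_le_mul_of_nonneg_right (hw i hi) (h0 i hi)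
  have hM : 0 ≤ ∑ i ∈ I, x i := sum_nonneg h0
  have hsq0 : 0 ≤ ∑ i ∈ I, x i ^ 2 := sum_nonneg fun i _ => sq_nonneg _
  rw [abs_le]
  constructor
  · have h1 : Real.exp (-(∑ i ∈ I, x i)) * (1 - ∑ i ∈ I, x i ^ 2) ≤ Real.exp (-(∑ i ∈ I, x i) - ∑ i ∈ I, x i ^ 2) := by
      rw [sub_eq_add_neg (-(∑ i ∈ I, x i)), Real.exp_add]
      apply mul_le_mul_of_nonneg_left _ (Real.exp_pos _).le
      have := Real.add_one_le_exp (-(∑ i ∈ I, x i ^ 2))
      linarith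
    have h2 : Real.exp (-(∑ i ∈ I, x i)) ≤ 1 := Real.exp_le_one_iff.2 (by linarith)
    have h3 : Real.exp (-(∑ i ∈ I, x i)) * (∑ i ∈ I, x i ^ 2) ≤ ∑ i ∈ I, x i ^ 2 := mul_le_of_le_one_left hsq0 h2
    linarith
  · have : 0 ≤ w * ∑ i ∈ I, x i := hsq0.trans hsq
    linarith

theorem exp_lip (a b : ℝ) (ha : 0 ≤ a) (hb : 0 ≤ b) : |Real.exp (-a) - Real.exp (-b)| ≤ |a - b| := by
  wlog h : a ≤ b generalizing a b with H
  · have := H b a hb ha (by linarith)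
    rwa [abs_sub_comm, abs_sub_comm a b]
  have h1 : Real.exp (-b) ≤ Real.exp (-a) := Real.exp_le_exp.2 (by linarith)
  rw [abs_of_nonneg (by linarith), abs_of_nonpos (by linarith)]
  have h2 : Real.exp (-a) * (1 - (b - a)) ≤ Real.exp (-b) := by
    have h3 : Real.exp (-b) = Real.exp (-a) * Real.exp (-(b - a)) := by
      rw [← Real.exp_add]
      congr 1
      ring
    rw [h3]
    apply mul_le_mul_of_nonneg_left _ (Real.exp_pos _).le
    have := Real.add_one_le_exp (-(b - a))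
    linarith
  have h4 : Real.exp (-a) ≤ 1 := Real.exp_le_one_iff.2 (by linarith)
  have h5 : Real.exp (-a) * (b - a) ≤ b - a := mul_le_of_le_one_left (by linarith) h4
  linarith

/-- the window `(n, n + H]` is empty -/
def Em (S : ℕ → Set Ω) (H n : ℕ) : Set Ω := Fh (fun n => (S n)ᶜ) (Icc 1 H) n

theorem mem_Em (S : ℕ → Set Ω) (H n : ℕ) (ω : Ω) : ω ∈ Em S H n ↔ ∀ h ∈ Icc 1 H, ω ∉ S (n + h) := by
  unfold Em Fh
  simp only [Set.mem_iInter, Set.mem_compl_iff]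

theorem prob_Em (hm : ∀ n, MeasurableSet (S n)) (hi : iIndepSet S μ) {A : ℝ} (hp : ∀ n, μ.real (S n) = pr A n) (H n : ℕ) :
    μ.real (Em S H n) = ∏ h ∈ Icc 1 H, (1 - pr A (n + h)) := by
  unfold Em
  rw [prob_Fh (fun n => (hm n).compl) (indep_compl hi)]
  refine prod_congr rfl fun h _ => ?_
  rw [probReal_compl_eq_one_sub (hm _), hp]

/-- the expected number of the empty windows -/
theorem mean_empty {A : ℝ} (hA : 0 < A) (hm : ∀ n, MeasurableSet (S n)) (hi : iIndepSet S μ)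
    (hp : ∀ n, μ.real (S n) = pr A n) (lam δ : ℝ) (hl : 0 < lam) (hδ : 0 < δ) : ∀ᶠ N : ℕ in atTop,
    |∑ n ∈ Ioc N (2 * N), μ.real (Em S ⌊lam * Real.log N⌋₊ n) - Real.exp (-lam) * N| ≤ δ * N := by
  obtain ⟨κ, hκ⟩ : ∃ κ, κ = δ / 8 := ⟨_, rfl⟩
  have hκ0 : 0 < κ := by rw [hκ]; positivity
  obtain ⟨w, hw⟩ : ∃ w, w = min (1 / 2) (δ / (4 * lam)) := ⟨_, rfl⟩
  have hw0 : 0 < w := by rw [hw]; exact lt_min (by norm_num) (by positivity)
  have hw1 : w ≤ 1 / 2 := by rw [hw]; exact min_le_left _ _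
  have hwl : w * lam ≤ δ / 4 := by
    have : w ≤ δ / (4 * lam) := by rw [hw]; exact min_le_right _ _
    rw [le_div_iff₀ (by positivity)] at this
    linarith
  filter_upwards [msd hA lam (κ ^ 2) hl (by positivity), eventually_forall_ge_atTop.2 (pr_small A hA w hw0)] with N h1 h2
  obtain ⟨H, hHd⟩ : ∃ H, H = ⌊lam * Real.log (N : ℝ)⌋₊ := ⟨_, rfl⟩
  rw [← hHd] at h1 ⊢
  have hN0 : (0 : ℝ) ≤ N := Nat.cast_nonneg _
  have h3 : ∀ n ∈ Ioc N (2 * N), |μ.real (Em S H n) - Real.exp (-lam)| ≤ w * lam + 2 * (κ + (Mw A H n - lam) ^ 2 / (4 * κ)) := by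
    intro n hn
    rw [mem_Ioc] at hn
    rw [prob_Em hm hi hp]
    have b1 := prod_exp (Icc 1 H) (fun h => pr A (n + h)) w (fun h _ => pr_nonneg A _) (fun h _ => h2 (n + h) (by omega)) hw1
    have b2 := exp_lip (Mw A H n) lam (Mw_nonneg A H n) hl.le
    have b3 : |Mw A H n - lam| ≤ κ + (Mw A H n - lam) ^ 2 / (4 * κ) := by
      have c1 : 0 ≤ (|Mw A H n - lam| - 2 * κ) ^ 2 := sq_nonneg _
      have c2 : |Mw A H n - lam| ^ 2 = (Mw A H n - lam) ^ 2 := sq_abs _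
      have c3 : 4 * κ * |Mw A H n - lam| ≤ 4 * κ ^ 2 + (Mw A H n - lam) ^ 2 := by nlinarith
      have c4 : 4 * κ ^ 2 + (Mw A H n - lam) ^ 2 = 4 * κ * (κ + (Mw A H n - lam) ^ 2 / (4 * κ)) := by
        field_simp
      rw [c4] at c3
      exact le_of_mul_le_mul_left c3 (by positivity)
    have b4 : w * Mw A H n ≤ w * lam + w * |Mw A H n - lam| := by
      rw [← mul_add]
      apply mul_le_mul_of_nonneg_left _ hw0.le
      linarith [le_abs_self (Mw A H n - lam)]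
    have b5 : w * |Mw A H n - lam| ≤ 1 * |Mw A H n - lam| := mul_le_mul_of_nonneg_right (by linarith) (abs_nonneg _)
    have b6 : ∑ h ∈ Icc 1 H, pr A (n + h) = Mw A H n := rfl
    rw [b6] at b1
    calc |∏ h ∈ Icc 1 H, (1 - pr A (n + h)) - Real.exp (-lam)| ≤ |∏ h ∈ Icc 1 H, (1 - pr A (n + h)) - Real.exp (-(Mw A H n))| +
          |Real.exp (-(Mw A H n)) - Real.exp (-lam)| := abs_sub_le _ _ _
      _ ≤ w * Mw A H n + |Mw A H n - lam| := add_le_add b1 b2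
      _ ≤ w * lam + 2 * |Mw A H n - lam| := by linarith
      _ ≤ _ := by linarith
  have h4 : Real.exp (-lam) * N = ∑ n ∈ Ioc N (2 * N), Real.exp (-lam) := by
    rw [sum_const, Nat.card_Ioc, nsmul_eq_mul]
    have : 2 * N - N = N := by omega
    rw [this]
    ring
  rw [h4, ← sum_sub_distrib]
  refine (abs_sum_le_sum_abs _ _).trans ((sum_le_sum h3).trans ?_)
  have hNN : 2 * N - N = N := by omega
  have hsumE : ∑ n ∈ Ioc N (2 * N), (w * lam + 2 * (κ + (Mw A H n - lam) ^ 2 / (4 * κ))) =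
      N * (w * lam) + 2 * (N * κ + (∑ n ∈ Ioc N (2 * N), (Mw A H n - lam) ^ 2) / (4 * κ)) := by
    rw [sum_add_distrib, sum_const, Nat.card_Ioc, nsmul_eq_mul, ← mul_sum, sum_add_distrib, sum_const, Nat.card_Ioc, nsmul_eq_mul,
      ← sum_div, hNN]
  rw [hsumE]
  have h5 : (∑ n ∈ Ioc N (2 * N), (Mw A H n - lam) ^ 2) / (4 * κ) ≤ κ * N := by
    rw [div_le_iff₀ (by positivity)]
    refine h1.trans ?_
    nlinarith [mul_nonneg (sq_nonneg κ) hN0]
  have h6 : (N : ℝ) * (w * lam) ≤ N * (δ / 4) := mul_le_mul_of_nonneg_left hwl hN0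
  have h7 : κ * (N : ℝ) = δ / 8 * N := by rw [hκ]
  have h8 : (N : ℝ) * κ = δ / 8 * N := by rw [hκ]; ring
  rw [h8]
  rw [h7] at h5
  nlinarith

/-- **almost surely, the number of the empty windows** -/
theorem emp_one {A : ℝ} (hA : 0 < A) (hm : ∀ n, MeasurableSet (S n)) (hi : iIndepSet S μ)
    (hp : ∀ n, μ.real (S n) = pr A n) (lam δ : ℝ) (hl : 0 < lam) (hδ : 0 < δ) (hδ1 : δ ≤ 1) :
    ∀ᵐ ω ∂μ, ∀ᶠ N : ℕ in atTop, |cnt (Ioc N (2 * N)) (Em S ⌊lam * Real.log N⌋₊) ω - Real.exp (-lam) * N| ≤ 2 * δ * N := by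
  classical
  obtain ⟨Bd, hBd⟩ : ∃ Bd : ℕ → Set Ω, Bd = fun N : ℕ =>
      {ω | δ * N < |cnt (Ioc N (2 * N)) (Em S ⌊lam * Real.log N⌋₊) ω - ∑ n ∈ Ioc N (2 * N), μ.real (Em S ⌊lam * Real.log N⌋₊ n)|} := ⟨_, rfl⟩
  have hprob : ∀ᶠ N : ℕ in atTop, μ.real (Bd N) ≤ 1 / (N : ℝ) ^ 2 := by
    filter_upwards [log_pow_small 1 (lam + 1) (1 / 4) (by norm_num) (by positivity), log_pow_small 1 (16 / δ ^ 2 * 4) (1 / 2) (by norm_num) (by positivity),
      eventually_ge_atTop 3, hL.eventually_ge_atTop 1] with N h1 h2 h3 h4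
    obtain ⟨H, hHd⟩ : ∃ H, H = ⌊lam * Real.log (N : ℝ)⌋₊ := ⟨_, rfl⟩
    have hN0 : (0 : ℝ) < N := by exact_mod_cast (by omega : 0 < N)
    have hN1 : (1 : ℝ) ≤ N := by exact_mod_cast (by omega : 1 ≤ N)
    have hH1 : (H : ℝ) + 1 ≤ (N : ℝ) ^ (1 / 4 : ℝ) := by
      have b1 : (H : ℝ) ≤ lam * Real.log N := by rw [hHd]; exact Nat.floor_le (by positivity)
      rw [pow_one] at h1
      refine le_trans ?_ h1
      linarith
    have hH0 : (0 : ℝ) < (H : ℝ) + 1 := by positivity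
    obtain ⟨t, ht⟩ : ∃ t : ℝ, t = δ * N / ((H : ℝ) + 1) := ⟨_, rfl⟩
    have ht0 : 0 < t := by rw [ht]; positivity
    have htN : t ≤ N := by
      rw [ht, div_le_iff₀ hH0]
      have b1 : δ * (N : ℝ) ≤ 1 * N := mul_le_mul_of_nonneg_right hδ1 hN0.le
      have b2 : (0 : ℝ) ≤ H := Nat.cast_nonneg _
      nlinarith
    have hmean : ∑ n ∈ Ioc N (2 * N), μ.real (Fh (fun n => (S n)ᶜ) (Icc 1 H) n) ≤ N := by
      calc ∑ n ∈ Ioc N (2 * N), μ.real (Fh (fun n => (S n)ᶜ) (Icc 1 H) n) ≤ ∑ n ∈ Ioc N (2 * N), (1 : ℝ) :=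
            sum_le_sum fun n _ => measureReal_le_one
        _ = N := by
            rw [sum_const, Nat.card_Ioc, nsmul_eq_mul]
            have : 2 * N - N = N := by omega
            rw [this, mul_one]
    have h5 := dev_prob (μ := μ) (S := fun n => (S n)ᶜ) (fun n => (hm n).compl) (indep_compl hi) (Icc 1 H) H (Subset.refl _) N (2 * N) N t
      hmean ht0.le htN hN0
    have e1 : ((H : ℝ) + 1) * t = δ * N := by rw [ht]; field_simp
    rw [e1] at h5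
    rw [hBd]
    show μ.real {ω | δ * N < |cnt (Ioc N (2 * N)) (Em S ⌊lam * Real.log N⌋₊) ω - ∑ n ∈ Ioc N (2 * N), μ.real (Em S ⌊lam * Real.log N⌋₊ n)|} ≤ _
    rw [← hHd]
    refine h5.trans ?_
    have e2 : 4 * Real.log N ≤ t ^ 2 / (4 * N) := by
      rw [ht, div_pow, div_div, le_div_iff₀ (by positivity)]
      have b1 : ((H : ℝ) + 1) ^ 2 ≤ (N : ℝ) ^ (1 / 2 : ℝ) := by
        calc ((H : ℝ) + 1) ^ 2 ≤ ((N : ℝ) ^ (1 / 4 : ℝ)) ^ 2 := pow_le_pow_left₀ hH0.le hH1 2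
          _ = (N : ℝ) ^ (1 / 2 : ℝ) := by
              rw [← Real.rpow_natCast, ← Real.rpow_mul hN0.le]
              norm_num
      have b2 : (N : ℝ) ^ (1 / 2 : ℝ) * (N : ℝ) ^ (1 / 2 : ℝ) = N := by
        rw [← Real.rpow_add hN0]
        norm_num
      rw [pow_one] at h2
      have b3 : 64 * Real.log N ≤ δ ^ 2 * (N : ℝ) ^ (1 / 2 : ℝ) := by
        have : 16 / δ ^ 2 * 4 * Real.log N * δ ^ 2 ≤ (N : ℝ) ^ (1 / 2 : ℝ) * δ ^ 2 := mul_le_mul_of_nonneg_right h2 (by positivity)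
        have e3 : 16 / δ ^ 2 * 4 * Real.log N * δ ^ 2 = 64 * Real.log N := by field_simp; norm_num
        linarith
      have hl0 : 0 ≤ Real.log (N : ℝ) := by linarith
      calc 4 * Real.log N * (((H : ℝ) + 1) ^ 2 * (4 * N)) ≤ 4 * Real.log N * ((N : ℝ) ^ (1 / 2 : ℝ) * (4 * N)) := by
            apply mul_le_mul_of_nonneg_left _ (by positivity)
            exact mul_le_mul_of_nonneg_right b1 (by positivity)
        _ = (16 * Real.log N) * (N : ℝ) ^ (1 / 2 : ℝ) * N := by ring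
        _ ≤ (δ ^ 2 * (N : ℝ) ^ (1 / 2 : ℝ)) * (N : ℝ) ^ (1 / 2 : ℝ) * N := by
            apply mul_le_mul_of_nonneg_right _ hN0.le
            apply mul_le_mul_of_nonneg_right _ (by positivity)
            linarith
        _ = δ ^ 2 * ((N : ℝ) ^ (1 / 2 : ℝ) * (N : ℝ) ^ (1 / 2 : ℝ)) * N := by ring
        _ = (δ * N) ^ 2 := by rw [b2]; ring
    have e3 : Real.exp (-(t ^ 2 / (4 * N))) ≤ 1 / (N : ℝ) ^ 4 := by
      calc Real.exp (-(t ^ 2 / (4 * N))) ≤ Real.exp (-(4 * Real.log N)) := Real.exp_le_exp.2 (by linarith)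
        _ = 1 / (N : ℝ) ^ 4 := by
            rw [Real.exp_neg, one_div, mul_comm, Real.exp_mul, Real.exp_log hN0]
            norm_num
    have e4 : (H : ℝ) + 1 ≤ N := by
      refine hH1.trans ?_
      calc (N : ℝ) ^ (1 / 4 : ℝ) ≤ (N : ℝ) ^ (1 : ℝ) := Real.rpow_le_rpow_of_exponent_le hN1 (by norm_num)
        _ = N := Real.rpow_one _
    calc ((H : ℝ) + 1) * (2 * Real.exp (-(t ^ 2 / (4 * N)))) ≤ N * (2 * (1 / (N : ℝ) ^ 4)) := by
          apply mul_le_mul e4 _ (by positivity) hN0.le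
          linarith
      _ = 2 / N * (1 / (N : ℝ) ^ 2) := by field_simp
      _ ≤ 1 * (1 / (N : ℝ) ^ 2) := by
          apply mul_le_mul_of_nonneg_right _ (by positivity)
          rw [div_le_one hN0]
          exact_mod_cast (by omega : 2 ≤ N)
      _ = 1 / (N : ℝ) ^ 2 := one_mul _
  obtain ⟨n₀, hn₀⟩ := eventually_atTop.1 hprob
  have hsum : Summable (fun N : ℕ => 1 / (N : ℝ) ^ 2) := Real.summable_one_div_nat_pow.2 (by norm_num)
  have h2 := bc (μ := μ) Bd n₀ _ hsum (fun n hn => hn₀ n hn)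
  filter_upwards [h2] with ω hω
  filter_upwards [hω, mean_empty hA hm hi hp lam δ hl hδ] with N hN hN2
  rw [hBd] at hN
  have h3 : |cnt (Ioc N (2 * N)) (Em S ⌊lam * Real.log N⌋₊) ω - ∑ n ∈ Ioc N (2 * N), μ.real (Em S ⌊lam * Real.log N⌋₊ n)| ≤ δ * N := by
    by_contra h5
    push Not at h5
    exact hN h5
  calc |cnt (Ioc N (2 * N)) (Em S ⌊lam * Real.log N⌋₊) ω - Real.exp (-lam) * N| ≤
        |cnt (Ioc N (2 * N)) (Em S ⌊lam * Real.log N⌋₊) ω - ∑ n ∈ Ioc N (2 * N), μ.real (Em S ⌊lam * Real.log N⌋₊ n)| +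
        |∑ n ∈ Ioc N (2 * N), μ.real (Em S ⌊lam * Real.log N⌋₊ n) - Real.exp (-lam) * N| := abs_sub_le _ _ _
    _ ≤ δ * N + δ * N := add_le_add h3 hN2
    _ = 2 * δ * N := by ring

end Pool.Agent.T2H62.ME
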