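import Pool.Agent.T2H62.ME.C

set_option autoImplicit false

/-! # From empty windows to gaps -/

namespace Pool.Agent.T2H62.ME

open Finset Filter Topology

section det

variable (R : Set ℕ) [DecidablePred (· ∈ R)]

/-- the number of the empty windows -/
def EmR (H N : ℕ) : ℕ := ((Ioc N (2 * N)).filter (fun n => ∀ h ∈ Icc 1 H, n + h ∉ R)).card

/-- the number of the elements followed by a gap `> H` -/
def LR (H N : ℕ) : ℕ := ((Ioc N (2 * N)).filter (fun n => n ∈ R ∧ ∀ h ∈ Icc 1 H, n + h ∉ R)).card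

theorem LR_anti {H H' : ℕ} (h : H ≤ H') (N : ℕ) : LR R H' N ≤ LR R H N := by
  unfold LR
  apply card_le_card
  intro n hn
  rw [mem_filter] at hn ⊢
  refine ⟨hn.1, hn.2.1, fun a ha => hn.2.2 a ?_⟩
  rw [mem_Icc] at ha ⊢
  omega

theorem step (H N : ℕ) (hN : 1 ≤ N) : (LR R H N : ℝ) ≤ EmR R H N - EmR R (H + 1) N + 1 ∧
    (EmR R H N : ℝ) - EmR R (H + 1) N - 1 ≤ LR R H N := by
  classical
  obtain ⟨A, hA⟩ : ∃ A : Finset ℕ, A = (Ioc N (2 * N)).filter (fun n => n ∉ R ∧ ∀ h ∈ Icc 1 H, n + h ∉ R) := ⟨_, rfl⟩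
  obtain ⟨B, hB⟩ : ∃ B : Finset ℕ, B = (Ioc N (2 * N)).filter (fun n => ∀ h ∈ Icc 1 (H + 1), n + h ∉ R) := ⟨_, rfl⟩
  have h1 : LR R H N + A.card = EmR R H N := by
    unfold LR EmR
    rw [hA, ← card_union_of_disjoint]
    · congr 1
      ext n
      rw [mem_union, mem_filter, mem_filter, mem_filter]
      by_cases hn : n ∈ R
      · constructor
        · rintro (h | h)
          · exact ⟨h.1, h.2.2⟩
          · exact ⟨h.1, h.2.2⟩
        · intro h
          exact Or.inl ⟨h.1, hn, h.2⟩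
      · constructor
        · rintro (h | h)
          · exact ⟨h.1, h.2.2⟩
          · exact ⟨h.1, h.2.2⟩
        · intro h
          exact Or.inr ⟨h.1, hn, h.2⟩
    · rw [Finset.disjoint_left]
      intro n h2 h3
      rw [mem_filter] at h2 h3
      exact h3.2.1 h2.2.1
  have h2 : A.card ≤ B.card + 1 := by
    have h3 : A.image (fun n => n - 1) ⊆ insert N B := by
      intro m hm
      rw [mem_image] at hm
      obtain ⟨n, hn, rfl⟩ := hm
      rw [hA, mem_filter, mem_Ioc] at hn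
      rw [mem_insert]
      rcases Nat.eq_or_lt_of_le (show N ≤ n - 1 by omega) with h4 | h4
      · exact Or.inl h4.symm
      · right
        rw [hB, mem_filter, mem_Ioc]
        refine ⟨by omega, fun h hh => ?_⟩
        rw [mem_Icc] at hh
        rcases Nat.eq_or_lt_of_le hh.1 with h5 | h5
        · have : n - 1 + h = n := by omega
          rw [this]
          exact hn.2.1
        · have : n - 1 + h = n + (h - 1) := by omega
          rw [this]
          exact hn.2.2 (h - 1) (by rw [mem_Icc]; omega)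
    have h4 : A.card = (A.image (fun n => n - 1)).card := by
      rw [card_image_of_injOn]
      intro a ha b hb hab
      rw [mem_coe, hA, mem_filter, mem_Ioc] at ha hb
      simp only at hab
      omega
    rw [h4]
    exact (card_le_card h3).trans (card_insert_le _ _)
  have h3 : B.card ≤ A.card + 1 := by
    have h4 : (B.erase (2 * N)).image (fun n => n + 1) ⊆ A := by
      intro m hm
      rw [mem_image] at hm
      obtain ⟨n, hn, rfl⟩ := hm
      rw [mem_erase, hB, mem_filter, mem_Ioc] at hn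
      rw [hA, mem_filter, mem_Ioc]
      refine ⟨by omega, hn.2.2 1 (by rw [mem_Icc]; omega), fun h hh => ?_⟩
      rw [mem_Icc] at hh
      have : n + 1 + h = n + (h + 1) := by omega
      rw [this]
      exact hn.2.2 (h + 1) (by rw [mem_Icc]; omega)
    have h5 : (B.erase (2 * N)).card ≤ A.card := by
      rw [← card_image_of_injective _ (f := fun n => n + 1) (fun a b h => Nat.add_right_cancel h)]
      exact card_le_card h4
    have h6 := pred_card_le_card_erase (s := B) (a := 2 * N)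
    omega
  have h4 : EmR R (H + 1) N = B.card := by
    unfold EmR
    rw [hB]
  have h1' : (LR R H N : ℝ) + A.card = EmR R H N := by exact_mod_cast h1
  have h2' : (A.card : ℝ) ≤ B.card + 1 := by exact_mod_cast h2
  have h3' : (B.card : ℝ) ≤ A.card + 1 := by exact_mod_cast h3
  rw [h4]
  constructor <;> linarith

theorem sum_up (H1 N : ℕ) (hN : 1 ≤ N) (k : ℕ) : (k : ℝ) * LR R (H1 + k) N ≤ EmR R H1 N - EmR R (H1 + k) N + k := by
  induction k with
  | zero => simp
  | succ k ih =>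
    have h1 := (step R (H1 + k) N hN).1
    have h2 : (LR R (H1 + k + 1) N : ℝ) ≤ LR R (H1 + k) N := by exact_mod_cast LR_anti R (Nat.le_succ _) N
    have h3 : (0 : ℝ) ≤ k := Nat.cast_nonneg _
    have e1 : H1 + (k + 1) = H1 + k + 1 := by ring
    rw [e1]
    push_cast
    nlinarith

theorem sum_dn (H1 N : ℕ) (hN : 1 ≤ N) (k : ℕ) : (EmR R H1 N : ℝ) - EmR R (H1 + k) N - k ≤ (k : ℝ) * LR R H1 N := by
  induction k with
  | zero => simp
  | succ k ih =>
    have h1 := (step R (H1 + k) N hN).2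
    have h2 : (LR R (H1 + k) N : ℝ) ≤ LR R H1 N := by exact_mod_cast LR_anti R (by omega) N
    have e1 : H1 + (k + 1) = H1 + k + 1 := by ring
    rw [e1]
    push_cast
    nlinarith

/-- **the law of the gaps** from the law of the empty windows -/
theorem law_det (hEm : ∀ q : ℚ, 0 < (q : ℝ) → ∀ δ : ℝ, 0 < δ → ∀ᶠ N : ℕ in atTop,
      |(EmR R ⌊(q : ℝ) * Real.log N⌋₊ N : ℝ) - Real.exp (-(q : ℝ)) * N| ≤ δ * N) (lam : ℝ) (hl : 0 < lam) (ε : ℝ) (hε : 0 < ε) :
    ∀ᶠ N : ℕ in atTop, |(LR R ⌊lam * Real.log N⌋₊ N : ℝ) - Real.exp (-lam) * (N / Real.log N)| ≤ ε * (N / Real.log N) := by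
  obtain ⟨η, hη⟩ : ∃ η, η = min (min (ε / 20) 1) (lam / 2) := ⟨_, rfl⟩
  have hη0 : 0 < η := by rw [hη]; exact lt_min (lt_min (by positivity) one_pos) (by positivity)
  have hη1 : η ≤ 1 := by rw [hη]; exact (min_le_left _ _).trans (min_le_right _ _)
  have hηε : η ≤ ε / 20 := by rw [hη]; exact (min_le_left _ _).trans (min_le_left _ _)
  have hηl : η ≤ lam / 2 := by rw [hη]; exact min_le_right _ _
  have hE1 : Real.exp (-lam) ≤ 1 := Real.exp_le_one_iff.2 (by linarith)
  have hE0 : 0 < Real.exp (-lam) := Real.exp_pos _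
  -- rational exponents
  obtain ⟨q2, hq2a, hq2b⟩ := exists_rat_btwn (show lam - η < lam by linarith)
  obtain ⟨q1, hq1a, hq1b⟩ := exists_rat_btwn (show lam - η < (q2 : ℝ) from hq2a)
  obtain ⟨q3, hq3a, hq3b⟩ := exists_rat_btwn (show lam < lam + η by linarith)
  obtain ⟨q4, hq4a, hq4b⟩ := exists_rat_btwn (show (q3 : ℝ) < lam + η from hq3b)
  obtain ⟨D, hD⟩ : ∃ D : ℝ, D = q2 - q1 := ⟨_, rfl⟩
  have hD0 : 0 < D := by rw [hD]; linarith
  obtain ⟨D', hD'⟩ : ∃ D' : ℝ, D' = q4 - q3 := ⟨_, rfl⟩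
  have hD0' : 0 < D' := by rw [hD']; linarith
  have hq10 : (0 : ℝ) < q1 := by linarith
  have hq20 : (0 : ℝ) < q2 := by linarith
  have hq30 : (0 : ℝ) < q3 := by linarith
  have hq40 : (0 : ℝ) < q4 := by linarith
  -- `N / log N` is large
  have hbig : ∀ᶠ N : ℕ in atTop, 1 ≤ η * (N / Real.log N) := by
    filter_upwards [Pool.Agent.T2H62.MD.log_pow_small 1 (1 / η) 1 one_pos (by positivity), hL.eventually_gt_atTop 0] with N h1 h2
    rw [pow_one, Real.rpow_one] at h1
    rw [← mul_div_assoc, le_div_iff₀ h2]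
    have h3 : η * (1 / η * Real.log N) ≤ η * N := mul_le_mul_of_nonneg_left h1 hη0.le
    have h4 : η * (1 / η * Real.log N) = Real.log N := by field_simp
    linarith
  filter_upwards [hEm q1 hq10 (η * D) (by positivity), hEm q2 hq20 (η * D) (by positivity), hEm q3 hq30 (η * D') (by positivity),
    hEm q4 hq40 (η * D') (by positivity), hbig, hL.eventually_ge_atTop ((1 + 1 / η) / D + 1), hL.eventually_ge_atTop ((1 / η) / D'), eventually_ge_atTop 1]
    with N k1 k2 k3 k4 k5 k6 k7 k8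
  obtain ⟨ℓ, hℓ⟩ : ∃ ℓ, ℓ = Real.log (N : ℝ) := ⟨_, rfl⟩
  rw [← hℓ] at k1 k2 k3 k4 k5 k6 k7 ⊢
  have hN0 : (0 : ℝ) < N := by exact_mod_cast (by omega : 0 < N)
  have hℓ0 : 0 < ℓ := by
    have : 0 < (1 + 1 / η) / D := by positivity
    linarith
  have hDl : 1 + 1 / η ≤ D * ℓ := by
    have h1 : (1 + 1 / η) / D ≤ ℓ := by linarith
    rw [div_le_iff₀ hD0] at h1
    linarith
  have hDl' : 1 / η ≤ D' * ℓ := by
    rw [div_le_iff₀ hD0'] at k7
    linarith
  obtain ⟨G, hG⟩ : ∃ G : ℝ, G = N / ℓ := ⟨_, rfl⟩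
  rw [← hG] at k5 ⊢
  have hG0 : 0 < G := by rw [hG]; positivity
  have hGN : (N : ℝ) = G * ℓ := by rw [hG]; field_simp
  rw [abs_le]
  constructor
  · -- lower bound
    obtain ⟨H3, hH3⟩ : ∃ H, H = ⌊(q3 : ℝ) * ℓ⌋₊ := ⟨_, rfl⟩
    obtain ⟨H4, hH4⟩ : ∃ H, H = ⌊(q4 : ℝ) * ℓ⌋₊ := ⟨_, rfl⟩
    rw [← hH3] at k3
    rw [← hH4] at k4
    have b1 : H3 ≤ H4 := by
      rw [hH3, hH4]
      exact Nat.floor_le_floor (mul_le_mul_of_nonneg_right hq4a.le hℓ0.le)
    obtain ⟨k, hk⟩ := Nat.exists_eq_add_of_le b1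
    have b2 : (k : ℝ) ≤ D' * ℓ + 1 := by
      have c1 : (H4 : ℝ) ≤ q4 * ℓ := by rw [hH4]; exact Nat.floor_le (by positivity)
      have c2 : (q3 : ℝ) * ℓ < H3 + 1 := by rw [hH3]; exact Nat.lt_floor_add_one _
      have c3 : (H4 : ℝ) = H3 + k := by exact_mod_cast hk
      rw [hD']
      linarith
    have b3 := sum_dn R H3 N k8 k
    rw [← hk] at b3
    have b4 : (LR R H3 N : ℝ) ≤ LR R ⌊lam * ℓ⌋₊ N := by
      have : ⌊lam * ℓ⌋₊ ≤ H3 := by
        rw [hH3]
        exact Nat.floor_le_floor (mul_le_mul_of_nonneg_right hq3a.le hℓ0.le)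
      exact_mod_cast LR_anti R this N
    have b5 : D' * (Real.exp (-lam) - η) ≤ Real.exp (-(q3 : ℝ)) - Real.exp (-(q4 : ℝ)) := by
      have c1 : Real.exp (-(q3 : ℝ)) = Real.exp (-(q4 : ℝ)) * Real.exp D' := by
        rw [← Real.exp_add]
        congr 1
        rw [hD']
        ring
      have c2 := Real.add_one_le_exp D'
      have c3 : Real.exp (-lam) - η ≤ Real.exp (-(q4 : ℝ)) := by
        have d1 : Real.exp (-lam) * Real.exp (-η) ≤ Real.exp (-(q4 : ℝ)) := by
          rw [← Real.exp_add]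
          exact Real.exp_le_exp.2 (by linarith)
        have d2 := Real.add_one_le_exp (-η)
        have d3 : Real.exp (-lam) * (1 - η) ≤ Real.exp (-lam) * Real.exp (-η) := mul_le_mul_of_nonneg_left (by linarith) hE0.le
        nlinarith
      have c4 : 0 < Real.exp (-(q4 : ℝ)) := Real.exp_pos _
      rw [c1]
      nlinarith
    have b6 := (abs_le.1 k3).1
    have b7 := (abs_le.1 k4).2
    have b8 : (D' * (Real.exp (-lam) - η) - 2 * (η * D')) * N ≤ (EmR R H3 N : ℝ) - EmR R H4 N := by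
      have := mul_le_mul_of_nonneg_right b5 hN0.le
      linarith
    -- divide
    obtain ⟨X, hX⟩ : ∃ X, X = Real.exp (-lam) - 3 * η := ⟨_, rfl⟩
    have b9 : D' * X * N ≤ (k : ℝ) * (LR R H3 N + 1) := by
      have : D' * X * N = (D' * (Real.exp (-lam) - η) - 2 * (η * D')) * N := by rw [hX]; ring
      rw [this]
      linarith
    have b10 : (k : ℝ) * (LR R H3 N + 1) ≤ (D' * ℓ + 1) * (LR R H3 N + 1) := mul_le_mul_of_nonneg_right b2 (by positivity)
    have b11 : X - η ≤ X * (D' * ℓ) / (D' * ℓ + 1) := by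
      rw [le_div_iff₀ (by positivity)]
      have c1 : X ≤ 1 := by rw [hX]; linarith
      have c2 : η * (D' * ℓ + 1) ≥ 1 := by
        have : η * (1 / η) ≤ η * (D' * ℓ) := mul_le_mul_of_nonneg_left hDl' hη0.le
        rw [mul_one_div_cancel hη0.ne'] at this
        linarith
      linarith
    have b12 : (X - η) * G ≤ LR R H3 N + 1 := by
      have c1 : X * (D' * ℓ) / (D' * ℓ + 1) * G ≤ LR R H3 N + 1 := by
        rw [div_mul_eq_mul_div, div_le_iff₀ (by positivity)]
        calc X * (D' * ℓ) * G = D' * X * N := by rw [hGN]; ring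
          _ ≤ _ := b9.trans b10
          _ = _ := by ring
      exact (mul_le_mul_of_nonneg_right b11 hG0.le).trans c1
    have b13 : (X - η) * G = Real.exp (-lam) * G - 4 * η * G := by rw [hX]; ring
    have b14 : 5 * η * G ≤ ε * G := mul_le_mul_of_nonneg_right (by linarith) hG0.le
    linarith
  · -- upper bound
    obtain ⟨H1, hH1⟩ : ∃ H, H = ⌊(q1 : ℝ) * ℓ⌋₊ := ⟨_, rfl⟩
    obtain ⟨H2, hH2⟩ : ∃ H, H = ⌊(q2 : ℝ) * ℓ⌋₊ := ⟨_, rfl⟩
    rw [← hH1] at k1
    rw [← hH2] at k2
    have b1 : H1 ≤ H2 := by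
      rw [hH1, hH2]
      exact Nat.floor_le_floor (mul_le_mul_of_nonneg_right hq1b.le hℓ0.le)
    obtain ⟨k, hk⟩ := Nat.exists_eq_add_of_le b1
    have b2 : D * ℓ - 1 ≤ (k : ℝ) := by
      have c1 : (H1 : ℝ) ≤ q1 * ℓ := by rw [hH1]; exact Nat.floor_le (by positivity)
      have c2 : (q2 : ℝ) * ℓ < H2 + 1 := by rw [hH2]; exact Nat.lt_floor_add_one _
      have c3 : (H2 : ℝ) = H1 + k := by exact_mod_cast hk
      rw [hD]
      linarith
    have b3 := sum_up R H1 N k8 k
    rw [← hk] at b3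
    have b4 : (LR R ⌊lam * ℓ⌋₊ N : ℝ) ≤ LR R H2 N := by
      have : H2 ≤ ⌊lam * ℓ⌋₊ := by
        rw [hH2]
        exact Nat.floor_le_floor (mul_le_mul_of_nonneg_right hq2b.le hℓ0.le)
      exact_mod_cast LR_anti R this N
    have b5 : Real.exp (-(q1 : ℝ)) - Real.exp (-(q2 : ℝ)) ≤ D * (Real.exp (-lam) + 2 * η) := by
      have c1 : Real.exp (-(q2 : ℝ)) = Real.exp (-(q1 : ℝ)) * Real.exp (-D) := by
        rw [← Real.exp_add]
        congr 1
        rw [hD]
        ring
      have c2 := Real.add_one_le_exp (-D)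
      have c3 : Real.exp (-(q1 : ℝ)) ≤ Real.exp (-lam) + 2 * η := by
        have d1 : Real.exp (-(q1 : ℝ)) ≤ Real.exp (-lam) * Real.exp η := by
          rw [← Real.exp_add]
          exact Real.exp_le_exp.2 (by linarith)
        have d2 : Real.exp η ≤ 1 + 2 * η := by
          have := Real.abs_exp_sub_one_sub_id_le (show |η| ≤ 1 by rw [abs_of_pos hη0]; exact hη1)
          have := (abs_le.1 this).2
          nlinarith
        have d3 : Real.exp (-lam) * Real.exp η ≤ Real.exp (-lam) * (1 + 2 * η) := mul_le_mul_of_nonneg_left d2 hE0.le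
        nlinarith
      have c4 : 0 < Real.exp (-(q1 : ℝ)) := Real.exp_pos _
      rw [c1]
      nlinarith
    have b6 := (abs_le.1 k1).2
    have b7 := (abs_le.1 k2).1
    have b8 : (EmR R H1 N : ℝ) - EmR R H2 N ≤ (D * (Real.exp (-lam) + 2 * η) + 2 * (η * D)) * N := by
      have := mul_le_mul_of_nonneg_right b5 hN0.le
      linarith
    obtain ⟨X, hX⟩ : ∃ X, X = Real.exp (-lam) + 4 * η := ⟨_, rfl⟩
    have hX0 : 0 < X := by rw [hX]; positivity
    have hX5 : X ≤ 5 := by rw [hX]; linarith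
    have hk0 : 0 < (k : ℝ) := by
      have : 0 < 1 / η := by positivity
      linarith
    have b9 : (k : ℝ) * (LR R H2 N - 1) ≤ D * X * N := by
      have : D * X * N = (D * (Real.exp (-lam) + 2 * η) + 2 * (η * D)) * N := by rw [hX]; ring
      rw [this]
      linarith
    have b10 : (LR R H2 N : ℝ) - 1 ≤ (X + 5 * η) * G := by
      have c1 : D * X * N ≤ k * ((X + 5 * η) * G) := by
        have c2 : D * X * N = (D * ℓ) * X * G := by rw [hGN]; ring
        rw [c2]
        have c3 : (D * ℓ - 1) * (X + 5 * η) ≤ k * (X + 5 * η) := mul_le_mul_of_nonneg_right b2 (by positivity)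
        have c4 : (D * ℓ) * X ≤ (D * ℓ - 1) * (X + 5 * η) := by
          have : 1 ≤ η * (D * ℓ - 1) := by
            have : η * (1 / η) ≤ η * (D * ℓ - 1) := mul_le_mul_of_nonneg_left (by linarith) hη0.le
            rwa [mul_one_div_cancel hη0.ne'] at this
          nlinarith
        calc (D * ℓ) * X * G ≤ (k * (X + 5 * η)) * G := mul_le_mul_of_nonneg_right (c4.trans c3) hG0.le
          _ = _ := by ring
      exact le_of_mul_le_mul_left (b9.trans c1) hk0
    have b13 : (X + 5 * η) * G = Real.exp (-lam) * G + 9 * η * G := by rw [hX]; ring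
    have b14 : 10 * η * G ≤ ε * G := mul_le_mul_of_nonneg_right (by linarith) hG0.le
    linarith

end det

end Pool.Agent.T2H62.ME
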