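import Pool.Agent.T2H62.ME.D
import Pool.Agent.T2H62.MD.W
import Pool.Agent.T2H62.MD.M

set_option autoImplicit false

/-! # The exponential law for the gaps between random primes -/

namespace Pool.Agent.T2H62.ME

open Finset Filter Topology MeasureTheory ProbabilityTheory
open Pool.Agent.T2H53.GW
open Pool.Agent.T2H62.MD

section ae

variable {Ω : Type*} [MeasurableSpace Ω] {μ : Measure Ω} [IsProbabilityMeasure μ] {S : ℕ → Set Ω}

theorem em_all {A : ℝ} (hA : 0 < A) (hm : ∀ n, MeasurableSet (S n)) (hi : iIndepSet S μ)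
    (hp : ∀ n, μ.real (S n) = pr A n) :
    ∀ᵐ ω ∂μ, ∀ R : Set ℕ, ∀ _ : DecidablePred (· ∈ R), R = {n | ω ∈ S n} → ∀ q : ℚ, 0 < (q : ℝ) → ∀ δ : ℝ, 0 < δ →
      ∀ᶠ N : ℕ in atTop, |(EmR R ⌊(q : ℝ) * Real.log N⌋₊ N : ℝ) - Real.exp (-(q : ℝ)) * N| ≤ δ * N := by
  classical
  have hae : ∀ᵐ ω ∂μ, ∀ q : {q : ℚ // 0 < (q : ℝ)}, ∀ k : ℕ, ∀ᶠ N : ℕ in atTop,
      |cnt (Ioc N (2 * N)) (Em S ⌊(q.1 : ℝ) * Real.log N⌋₊) ω - Real.exp (-(q.1 : ℝ)) * N| ≤ 2 * (1 / (2 * ((k : ℝ) + 1))) * N :=
    ae_all_iff.2 fun q => ae_all_iff.2 fun k => emp_one hA hm hi hp (q.1 : ℝ) (1 / (2 * ((k : ℝ) + 1))) q.2 (by positivity) (by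
      rw [div_le_one (by positivity)]
      have : (0 : ℝ) ≤ k := Nat.cast_nonneg k
      linarith)
  filter_upwards [hae] with ω hω R hdec hR q hq δ hδ
  obtain ⟨k, hk⟩ := exists_nat_one_div_lt hδ
  filter_upwards [hω ⟨q, hq⟩ k] with N hN
  have h1 : cnt (Ioc N (2 * N)) (Em S ⌊(q : ℝ) * Real.log N⌋₊) ω = (EmR R ⌊(q : ℝ) * Real.log N⌋₊ N : ℝ) := by
    rw [cnt_eq]
    unfold EmR
    congr 2
    apply filter_congr
    intro n _
    rw [mem_Em, hR]
    rfl
  rw [← h1]
  refine hN.trans ?_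
  apply mul_le_mul_of_nonneg_right _ (Nat.cast_nonneg _)
  have e1 : 2 * (1 / (2 * ((k : ℝ) + 1))) = 1 / ((k : ℝ) + 1) := by field_simp
  rw [e1]
  exact hk.le

/-- the law of the gaps and the number of the elements -/
theorem gap_law {A : ℝ} (hA : 0 < A) (hm : ∀ n, MeasurableSet (S n)) (hi : iIndepSet S μ)
    (hp : ∀ n, μ.real (S n) = pr A n) :
    ∀ᵐ ω ∂μ, ∀ R : Set ℕ, ∀ _ : DecidablePred (· ∈ R), R = {n | ω ∈ S n} →
      (∀ lam : ℝ, 0 < lam → ∀ ε : ℝ, 0 < ε → ∀ᶠ N : ℕ in atTop,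
        |(LR R ⌊lam * Real.log N⌋₊ N : ℝ) - Real.exp (-lam) * (N / Real.log N)| ≤ ε * (N / Real.log N)) ∧
      (∀ ε : ℝ, 0 < ε → ∀ᶠ N : ℕ in atTop,
        |(((Ioc N (2 * N)).filter (fun n => n ∈ R)).card : ℝ) - N / Real.log N| ≤ ε * (N / Real.log N)) ∧
      ∀ᶠ N : ℕ in atTop, ∃ n ∈ Ioc N (N + ⌊Real.log N ^ (3 : ℝ)⌋₊), n ∈ R := by
  classical
  filter_upwards [em_all hA hm hi hp, HL_short A hA hm hi hp, gaps_upper A hA hm hi hp] with ω h1 h2 h3 R hdec hR
  refine ⟨fun lam hl ε hε => law_det R (h1 R hdec hR) lam hl ε hε, ?_, ?_⟩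
  · intro ε hε
    have h5 := h2 {1} (by simp) (fun p hp' => by rw [nu_one]; exact hp'.one_lt) 1
      (tendsto_const_nhds.congr fun z => (SS_one z).symm) (1 / 2) (ε / 2) (by norm_num) (by positivity)
    filter_upwards [h5, log_pow_small 1 (2 / ε) 1 one_pos (by positivity), eventually_ge_atTop 3] with N h6 h7 h8
    have hN0 : (3 : ℝ) ≤ N := by exact_mod_cast h8
    have hℓ : 0 < Real.log (N : ℝ) := Real.log_pos (by linarith)
    have h9 : (N : ℝ) ^ (1 / 2 : ℝ) ≤ (N : ℝ) := by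
      calc (N : ℝ) ^ (1 / 2 : ℝ) ≤ (N : ℝ) ^ (1 : ℝ) :=
            Real.rpow_le_rpow_of_exponent_le (by linarith) (by norm_num)
        _ = (N : ℝ) := Real.rpow_one _
    have h10 := h6 (2 * N) (by push_cast; linarith) le_rfl
    have hcnt : cnt (Ioc N (2 * N)) (Fh S {1}) ω = (((Ioc N (2 * N)).filter (fun n => n + 1 ∈ R)).card : ℝ) := by
      rw [cnt_eq]
      congr 2
      apply filter_congr
      intro n _
      unfold Fh
      rw [hR]
      simp
    rw [hcnt, card_singleton, pow_one, one_mul] at h10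
    have e1 : (((2 * N : ℕ) : ℝ) - N) = N := by push_cast; ring
    rw [e1] at h10
    have h11 : (((Ioc N (2 * N)).filter (fun n => n ∈ R)).card) ≤ ((Ioc N (2 * N)).filter (fun n => n + 1 ∈ R)).card + 1 := by
      have h12 : ((Ioc N (2 * N)).filter (fun n => n ∈ R)).image (fun n => n - 1) ⊆ insert N ((Ioc N (2 * N)).filter (fun n => n + 1 ∈ R)) := by
        intro m hm
        rw [mem_image] at hm
        obtain ⟨n, hn, rfl⟩ := hm
        rw [mem_filter, mem_Ioc] at hn
        rw [mem_insert]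
        rcases Nat.eq_or_lt_of_le (show N ≤ n - 1 by omega) with h4 | h4
        · exact Or.inl h4.symm
        · right
          rw [mem_filter, mem_Ioc]
          have : n - 1 + 1 = n := by omega
          rw [this]
          exact ⟨by omega, hn.2⟩
      have h13 : ((Ioc N (2 * N)).filter (fun n => n ∈ R)).card = (((Ioc N (2 * N)).filter (fun n => n ∈ R)).image (fun n => n - 1)).card := by
        rw [card_image_of_injOn]
        intro a ha b hb hab
        rw [mem_coe, mem_filter, mem_Ioc] at ha hb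
        simp only at hab
        omega
      rw [h13]
      exact (card_le_card h12).trans (card_insert_le _ _)
    have h12 : ((Ioc N (2 * N)).filter (fun n => n + 1 ∈ R)).card ≤ ((Ioc N (2 * N)).filter (fun n => n ∈ R)).card + 1 := by
      have h13 : ((Ioc N (2 * N)).filter (fun n => n + 1 ∈ R)).image (fun n => n + 1) ⊆ insert (2 * N + 1) ((Ioc N (2 * N)).filter (fun n => n ∈ R)) := by
        intro m hm
        rw [mem_image] at hm
        obtain ⟨n, hn, rfl⟩ := hm
        rw [mem_filter, mem_Ioc] at hn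
        rw [mem_insert]
        rcases Nat.eq_or_lt_of_le hn.1.2 with h4 | h4
        · exact Or.inl (by rw [h4])
        · right
          rw [mem_filter, mem_Ioc]
          exact ⟨by omega, hn.2⟩
      rw [← card_image_of_injective ((Ioc N (2 * N)).filter (fun n => n + 1 ∈ R)) (f := fun n => n + 1) (fun a b h => Nat.add_right_cancel h)]
      exact (card_le_card h13).trans (card_insert_le _ _)
    have h11' : ((((Ioc N (2 * N)).filter (fun n => n ∈ R)).card : ℕ) : ℝ) ≤ ((Ioc N (2 * N)).filter (fun n => n + 1 ∈ R)).card + 1 := by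
      exact_mod_cast h11
    have h12' : ((((Ioc N (2 * N)).filter (fun n => n + 1 ∈ R)).card : ℕ) : ℝ) ≤ ((Ioc N (2 * N)).filter (fun n => n ∈ R)).card + 1 := by
      exact_mod_cast h12
    have h13 : 1 ≤ ε / 2 * (N / Real.log N) := by
      rw [pow_one, Real.rpow_one] at h7
      rw [← mul_div_assoc, le_div_iff₀ hℓ]
      have h3 : ε / 2 * (2 / ε * Real.log N) ≤ ε / 2 * N := mul_le_mul_of_nonneg_left h7 (by positivity)
      have h4 : ε / 2 * (2 / ε * Real.log N) = Real.log N := by field_simp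
      linarith
    have h14 := abs_le.1 h10
    rw [abs_le]
    constructor <;> linarith [h14.1, h14.2]
  · rw [hR]
    exact h3 3 (by norm_num)

end ae

section det

variable (R : Set ℕ) [DecidablePred (· ∈ R)]

/-- from the law of the gaps to the law of a comparable quantity -/
theorem prop_law (hlaw : ∀ lam : ℝ, 0 < lam → ∀ ε : ℝ, 0 < ε → ∀ᶠ N : ℕ in atTop,
        |(LR R ⌊lam * Real.log N⌋₊ N : ℝ) - Real.exp (-lam) * (N / Real.log N)| ≤ ε * (N / Real.log N))
    (hcard : ∀ ε : ℝ, 0 < ε → ∀ᶠ N : ℕ in atTop,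
        |(((Ioc N (2 * N)).filter (fun n => n ∈ R)).card : ℝ) - N / Real.log N| ≤ ε * (N / Real.log N))
    (c : ℕ → ℝ) (lam : ℝ) (hl : 0 < lam)
    (hup : ∀ l : ℝ, 0 < l → l < lam → ∀ᶠ N : ℕ in atTop, c N ≤ LR R ⌊l * Real.log N⌋₊ N)
    (hlo : ∀ l : ℝ, lam < l → ∀ᶠ N : ℕ in atTop, (LR R ⌊l * Real.log N⌋₊ N : ℝ) ≤ c N) :
    Tendsto (fun N : ℕ => c N / ((Ioc N (2 * N)).filter (fun n => n ∈ R)).card) atTop (𝓝 (Real.exp (-lam))) := by
  rw [Metric.tendsto_atTop']
  intro ε hε
  obtain ⟨η, hη⟩ : ∃ η, η = min (min (ε / 16) (1 / 2)) (lam / 2) := ⟨_, rfl⟩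
  have hη0 : 0 < η := by rw [hη]; exact lt_min (lt_min (by positivity) (by norm_num)) (by positivity)
  have hη1 : η ≤ 1 / 2 := by rw [hη]; exact (min_le_left _ _).trans (min_le_right _ _)
  have hηε : η ≤ ε / 16 := by rw [hη]; exact (min_le_left _ _).trans (min_le_left _ _)
  have hηl : η ≤ lam / 2 := by rw [hη]; exact min_le_right _ _
  have hev : ∀ᶠ N : ℕ in atTop, dist (c N / ((Ioc N (2 * N)).filter (fun n => n ∈ R)).card) (Real.exp (-lam)) < ε := by
    filter_upwards [hup (lam - η) (by linarith) (by linarith), hlo (lam + η) (by linarith), hlaw (lam - η) (by linarith) η hη0,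
      hlaw (lam + η) (by linarith) η hη0, hcard η hη0, eventually_ge_atTop 3] with N h1 h2 h3 h4 h5 h6
    have hN0 : (3 : ℝ) ≤ N := by exact_mod_cast h6
    have hℓ : 0 < Real.log (N : ℝ) := Real.log_pos (by linarith)
    obtain ⟨G, hG⟩ : ∃ G : ℝ, G = N / Real.log N := ⟨_, rfl⟩
    have hG0 : 0 < G := by rw [hG]; positivity
    rw [← hG] at h3 h4 h5
    obtain ⟨C, hC⟩ : ∃ C : ℝ, C = ((Ioc N (2 * N)).filter (fun n => n ∈ R)).card := ⟨_, rfl⟩
    rw [← hC] at h5 ⊢
    have b1 := abs_le.1 h3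
    have b2 := abs_le.1 h4
    have b3 := abs_le.1 h5
    have b4 := abs_le.1 (exp_lip (lam - η) lam (by linarith) hl.le)
    have b5 := abs_le.1 (exp_lip (lam + η) lam (by linarith) hl.le)
    have e1 : |lam - η - lam| = η := by rw [show lam - η - lam = -η by ring, abs_neg, abs_of_pos hη0]
    have e2 : |lam + η - lam| = η := by rw [show lam + η - lam = η by ring, abs_of_pos hη0]
    rw [e1] at b4
    rw [e2] at b5
    have hE1 : Real.exp (-lam) ≤ 1 := Real.exp_le_one_iff.2 (by linarith)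
    have hE0 : 0 < Real.exp (-lam) := Real.exp_pos _
    have hCG : G / 2 ≤ C := by nlinarith [b3.1]
    have hC0 : 0 < C := by linarith
    have b6 : |c N - Real.exp (-lam) * G| ≤ 2 * η * G := by
      rw [abs_le]
      constructor
      · have : (Real.exp (-lam) - η) * G ≤ Real.exp (-(lam + η)) * G := mul_le_mul_of_nonneg_right (by linarith [b5.1]) hG0.le
        linarith [b2.1]
      · have : Real.exp (-(lam - η)) * G ≤ (Real.exp (-lam) + η) * G := mul_le_mul_of_nonneg_right (by linarith [b4.2]) hG0.le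
        linarith [b1.2]
    have b7 : |c N - Real.exp (-lam) * C| ≤ 3 * η * G := by
      have c1 : c N - Real.exp (-lam) * C = (c N - Real.exp (-lam) * G) - Real.exp (-lam) * (C - G) := by ring
      have c2 : |Real.exp (-lam) * (C - G)| ≤ η * G := by
        rw [abs_mul, abs_of_pos hE0]
        calc Real.exp (-lam) * |C - G| ≤ 1 * |C - G| := mul_le_mul_of_nonneg_right hE1 (abs_nonneg _)
          _ ≤ η * G := by rw [one_mul]; exact h5
      rw [c1]
      refine (abs_sub _ _).trans ?_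
      linarith
    rw [Real.dist_eq]
    have b8 : c N / C - Real.exp (-lam) = (c N - Real.exp (-lam) * C) / C := by field_simp
    rw [b8, abs_div, abs_of_pos hC0, div_lt_iff₀ hC0]
    calc |c N - Real.exp (-lam) * C| ≤ 3 * η * G := b7
      _ ≤ 6 * η * C := by nlinarith
      _ < ε * C := mul_lt_mul_of_pos_right (by linarith) hC0
  obtain ⟨N₀, hN₀⟩ := eventually_atTop.1 hev
  exact ⟨N₀, fun n hn => hN₀ n hn.le⟩

open scoped Classical in
/-- the normalised differences of the square roots -/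
theorem andrica_law (hlaw : ∀ lam : ℝ, 0 < lam → ∀ ε : ℝ, 0 < ε → ∀ᶠ N : ℕ in atTop,
        |(LR R ⌊lam * Real.log N⌋₊ N : ℝ) - Real.exp (-lam) * (N / Real.log N)| ≤ ε * (N / Real.log N))
    (hcard : ∀ ε : ℝ, 0 < ε → ∀ᶠ N : ℕ in atTop,
        |(((Ioc N (2 * N)).filter (fun n => n ∈ R)).card : ℝ) - N / Real.log N| ≤ ε * (N / Real.log N)) (lam : ℝ) (hl : 0 < lam) :
    Tendsto (fun N : ℕ => ((((Ioc N (2 * N)).filter (fun r => r ∈ R ∧ ∀ r' ∈ R, r < r' →
      lam * Real.log r / (2 * Real.sqrt r) < Real.sqrt r' - Real.sqrt r)).card : ℕ) : ℝ) / ((Ioc N (2 * N)).filter (fun n => n ∈ R)).card)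
      atTop (𝓝 (Real.exp (-lam))) := by
  apply prop_law R hlaw hcard _ lam hl
  · intro l hl0 hll
    filter_upwards [eventually_ge_atTop 3] with N hN
    unfold LR
    norm_cast
    apply card_le_card
    intro r hr
    rw [mem_filter, mem_Ioc] at hr ⊢
    obtain ⟨hr1, hr2, hr3⟩ := hr
    refine ⟨hr1, hr2, fun h hh hR => ?_⟩
    rw [mem_Icc] at hh
    have hN0 : (0 : ℝ) < N := by exact_mod_cast (by omega : 0 < N)
    have hr0 : (0 : ℝ) < r := by exact_mod_cast (by omega : 0 < r)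
    have hs : 0 < Real.sqrt (r : ℝ) := Real.sqrt_pos.2 hr0
    have h1 := hr3 (r + h) hR (by omega)
    have h2 : (h : ℝ) ≤ l * Real.log N := by
      have h3 : ((⌊l * Real.log (N : ℝ)⌋₊ : ℕ) : ℝ) ≤ l * Real.log N := Nat.floor_le (by
        have : 0 ≤ Real.log (N : ℝ) := Real.log_nonneg (by exact_mod_cast (by omega : 1 ≤ N))
        positivity)
      exact le_trans (by exact_mod_cast hh.2) h3
    have h3 : Real.log N ≤ Real.log r := Real.log_le_log hN0 (by exact_mod_cast hr1.1.le)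
    have hlN : 0 ≤ Real.log (N : ℝ) := Real.log_nonneg (by exact_mod_cast (by omega : 1 ≤ N))
    have h4 : Real.sqrt ((r + h : ℕ) : ℝ) ≤ Real.sqrt r + h / (2 * Real.sqrt r) := by
      rw [Real.sqrt_le_left (by positivity)]
      have h5 : Real.sqrt (r : ℝ) ^ 2 = r := Real.sq_sqrt hr0.le
      have h6 : (Real.sqrt (r : ℝ) + h / (2 * Real.sqrt r)) ^ 2 = r + h + (h / (2 * Real.sqrt r)) ^ 2 := by
        rw [add_sq, h5]
        field_simp
      rw [h6]
      push_cast
      linarith [sq_nonneg ((h : ℝ) / (2 * Real.sqrt r))]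
    have h5 : lam * Real.log r / (2 * Real.sqrt r) < h / (2 * Real.sqrt r) := by linarith
    rw [div_lt_div_iff_of_pos_right (by positivity)] at h5
    have h6 : l * Real.log N ≤ lam * Real.log r := mul_le_mul hll.le h3 hlN hl.le
    linarith
  · intro l hll
    have hd : 0 < l - lam := by linarith
    have hsq : ∀ᶠ N : ℕ in atTop, (lam * (Real.log N + 1)) ^ 2 ≤ 4 * N := by
      filter_upwards [log_pow_small 2 (lam ^ 2) 1 one_pos (by positivity), hL.eventually_ge_atTop 1] with N h1 h2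
      rw [Real.rpow_one] at h1
      have h3 : (lam * (Real.log N + 1)) ^ 2 ≤ 4 * (lam ^ 2 * Real.log N ^ 2) := by
        have h4 : (Real.log (N : ℝ) + 1) ^ 2 ≤ 4 * Real.log N ^ 2 := by nlinarith
        calc (lam * (Real.log N + 1)) ^ 2 = lam ^ 2 * (Real.log N + 1) ^ 2 := by ring
          _ ≤ lam ^ 2 * (4 * Real.log N ^ 2) := mul_le_mul_of_nonneg_left h4 (sq_nonneg _)
          _ = _ := by ring
      linarith
    filter_upwards [eventually_ge_atTop 3, hL.eventually_ge_atTop ((lam + 1) / (l - lam)), hsq] with N hN h1 h2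
    unfold LR
    norm_cast
    apply card_le_card
    intro r hr
    rw [mem_filter, mem_Ioc] at hr ⊢
    obtain ⟨hr1, hr2, hr3⟩ := hr
    refine ⟨hr1, hr2, fun r' hr' hrr' => ?_⟩
    have hN0 : (0 : ℝ) < N := by exact_mod_cast (by omega : 0 < N)
    have hNr : (N : ℝ) ≤ r := by exact_mod_cast hr1.1.le
    have hr0 : (0 : ℝ) < r := by linarith
    have hr2N : (r : ℝ) ≤ 2 * N := by exact_mod_cast hr1.2
    have hs : 0 < Real.sqrt (r : ℝ) := Real.sqrt_pos.2 hr0
    have hg : l * Real.log N < (r' : ℝ) - r := by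
      by_contra hcon
      push Not at hcon
      apply hr3 (r' - r)
      · rw [mem_Icc]
        refine ⟨by omega, ?_⟩
        apply Nat.le_floor
        rw [Nat.cast_sub hrr'.le]
        exact hcon
      · have : r + (r' - r) = r' := by omega
        rw [this]
        exact hr'
    have hlr : Real.log r ≤ Real.log N + 1 := by
      have b2 := Real.log_le_log hr0 hr2N
      rw [Real.log_mul (by norm_num) hN0.ne'] at b2
      have b3 := Real.log_two_lt_d9
      linarith
    have hlr0 : 0 ≤ Real.log (r : ℝ) := Real.log_nonneg (by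
      have : (3 : ℝ) ≤ N := by exact_mod_cast hN
      linarith)
    rw [lt_sub_iff_add_lt]
    apply Real.lt_sqrt_of_sq_lt
    have h5 : Real.sqrt (r : ℝ) ^ 2 = r := Real.sq_sqrt hr0.le
    have h6 : (lam * Real.log r / (2 * Real.sqrt r) + Real.sqrt r) ^ 2 = r + lam * Real.log r + (lam * Real.log r) ^ 2 / (4 * r) := by
      have e1 : (lam * Real.log r / (2 * Real.sqrt r) + Real.sqrt r) ^ 2 = (lam * Real.log r) ^ 2 / (4 * Real.sqrt r ^ 2) +
          lam * Real.log r + Real.sqrt r ^ 2 := by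
        field_simp
        ring
      rw [e1, h5]
      ring
    rw [h6]
    have h7 : (lam * Real.log r) ^ 2 / (4 * r) ≤ 1 := by
      rw [div_le_one (by positivity)]
      calc (lam * Real.log r) ^ 2 ≤ (lam * (Real.log N + 1)) ^ 2 := by
            apply pow_le_pow_left₀ (by positivity)
            exact mul_le_mul_of_nonneg_left hlr hl.le
        _ ≤ 4 * (N : ℝ) := h2
        _ ≤ 4 * (r : ℝ) := by linarith
    have h8 : lam * Real.log r ≤ lam * (Real.log N + 1) := mul_le_mul_of_nonneg_left hlr hl.le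
    rw [div_le_iff₀ hd] at h1
    linarith

end det

end Pool.Agent.T2H62.ME
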